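import Pool.Agent.L5helper26.CP.Kos

set_option autoImplicit false
set_option linter.unusedSectionVars false

/-! # The syzygies of power series with linearly independent linear parts -/

namespace Pool.Agent.L5helper26.CP

open MvPowerSeries Finsupp

variable {κ : Type*} [Fintype κ] [DecidableEq κ]

/-- division of the homogeneous parts: the part of degree `q` is divided by `q + r` -/
noncomputable def dv (r : ℕ) (a : MvPowerSeries κ ℂ) : MvPowerSeries κ ℂ :=
  fun n => ((n.degree : ℂ) + r)⁻¹ * coeff n a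

theorem coeff_dv (r : ℕ) (a : MvPowerSeries κ ℂ) (n : κ →₀ ℕ) :
    coeff n (dv r a) = ((n.degree : ℂ) + r)⁻¹ * coeff n a := rfl

theorem dv_neg (r : ℕ) (a : MvPowerSeries κ ℂ) : dv r (-a) = -dv r a := by
  ext n
  rw [coeff_dv, map_neg, map_neg, coeff_dv]
  ring

theorem coeff_X_mul_zero (m : κ) (a : MvPowerSeries κ ℂ) (n : κ →₀ ℕ) (h : n m = 0) :
    coeff n (X m * a : MvPowerSeries κ ℂ) = 0 := by
  classical
  rw [X_def, coeff_monomial_mul, if_neg]
  intro h1
  have h2 := h1 m
  rw [Finsupp.single_eq_same, h] at h2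
  omega

theorem coeff_X_mul_pos (m : κ) (a : MvPowerSeries κ ℂ) (n : κ →₀ ℕ) (h : n m ≠ 0) :
    coeff n (X m * a : MvPowerSeries κ ℂ) = coeff (n - single m 1) a := by
  classical
  rw [X_def, coeff_monomial_mul, if_pos, one_mul]
  rw [Finsupp.single_le_iff]
  omega

theorem degree_sub (m : κ) (n : κ →₀ ℕ) (h : n m ≠ 0) :
    (((n - single m 1).degree : ℕ) : ℂ) = (n.degree : ℂ) - 1 := by
  have h1 : (n - single m 1) + single m 1 = n := by
    rw [tsub_add_cancel_of_le]
    rw [Finsupp.single_le_iff]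
    omega
  have h2 : n.degree = (n - single m 1).degree + 1 := by
    conv_lhs => rw [← h1]
    rw [map_add, Finsupp.degree_single]
  rw [h2]
  push_cast
  ring

theorem coeff_X_mul_dv (r : ℕ) (m : κ) (a : MvPowerSeries κ ℂ) (n : κ →₀ ℕ) :
    coeff n (X m * dv (r + 1) a : MvPowerSeries κ ℂ) =
      ((n.degree : ℂ) + r)⁻¹ * coeff n (X m * a : MvPowerSeries κ ℂ) := by
  by_cases h : n m = 0
  · rw [coeff_X_mul_zero m _ n h, coeff_X_mul_zero m _ n h, mul_zero]
  · rw [coeff_X_mul_pos m _ n h, coeff_X_mul_pos m _ n h, coeff_dv, degree_sub m n h]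
    congr 2
    push_cast
    ring

/-- the coefficients of `∑ X_m D_m u` -/
theorem coeff_euler (u : MvPowerSeries κ ℂ) (n : κ →₀ ℕ) :
    coeff n (∑ m, X m * pderiv ℂ m u) = (n.degree : ℂ) * coeff n u := by
  rw [map_sum]
  have h : ∀ m, coeff n (X m * pderiv ℂ m u : MvPowerSeries κ ℂ) = (n m : ℂ) * coeff n u := by
    intro m
    by_cases h : n m = 0
    · rw [coeff_X_mul_zero m _ n h, h, Nat.cast_zero, zero_mul]
    · rw [coeff_X_mul_pos m _ n h, coeff_pderiv]
      have h1 : (n - single m 1) + single m 1 = n := by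
        rw [tsub_add_cancel_of_le]
        rw [Finsupp.single_le_iff]
        omega
      rw [h1, mul_comm]
      congr 1
      rw [Finsupp.tsub_apply, Finsupp.single_eq_same, Nat.cast_sub (by omega)]
      push_cast
      ring
  rw [Finset.sum_congr rfl fun m _ => h m, ← Finset.sum_mul]
  congr 1
  rw [Finsupp.degree_eq_sum]
  push_cast
  rfl

/-- the syzygies of the variables are trivial -/
theorem syz_vars : Syz (A := MvPowerSeries κ ℂ) (fun k : κ => (X k : MvPowerSeries κ ℂ)) := by
  intro u hu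
  refine ⟨fun k m => dv 2 (pderiv ℂ m (u k) - pderiv ℂ k (u m)), fun k m => ?_, fun k => ?_⟩
  · rw [← dv_neg, neg_sub]
  · ext n
    have h1 : ∑ m, dv 2 (pderiv ℂ m (u k) - pderiv ℂ k (u m)) * X m =
        ∑ m, (X m : MvPowerSeries κ ℂ) * dv (1 + 1) (pderiv ℂ m (u k) - pderiv ℂ k (u m)) :=
      Finset.sum_congr rfl fun m _ => mul_comm _ _
    have h2 : ∑ m, (X m : MvPowerSeries κ ℂ) * pderiv ℂ k (u m) = -u k := by
      have h3 := congrArg (pderiv ℂ k) hu
      rw [map_sum, map_zero] at h3
      simp only [Derivation.leibniz, smul_eq_mul] at h3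
      rw [Finset.sum_add_distrib] at h3
      have h4 : ∑ m, u m * pderiv ℂ k (X m : MvPowerSeries κ ℂ) = u k := by
        rw [Finset.sum_eq_single k]
        · rw [pderiv_X_self, mul_one]
        · intro m _ hm
          rw [pderiv_X_of_ne hm, mul_zero]
        · intro h
          exact absurd (Finset.mem_univ k) h
      rw [h4] at h3
      linear_combination h3
    rw [h1, map_sum]
    simp only [coeff_X_mul_dv]
    rw [← Finset.mul_sum, ← map_sum]
    have h5 : ∑ m, (X m : MvPowerSeries κ ℂ) * (pderiv ℂ m (u k) - pderiv ℂ k (u m)) =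
        ∑ m, (X m : MvPowerSeries κ ℂ) * pderiv ℂ m (u k) + u k := by
      simp only [mul_sub, Finset.sum_sub_distrib]
      rw [h2]
      ring
    rw [h5, map_add, coeff_euler]
    have h6 : (n.degree : ℂ) + 1 ≠ 0 := by exact_mod_cast Nat.succ_ne_zero n.degree
    push_cast
    field_simp

/-- division by the variables -/
theorem eq_sum_dv (g : MvPowerSeries κ ℂ) (hg : constantCoeff g = 0) :
    g = ∑ m, dv 1 (pderiv ℂ m g) * X m := by
  ext n
  have h1 : ∑ m, dv 1 (pderiv ℂ m g) * X m =
      ∑ m, (X m : MvPowerSeries κ ℂ) * dv (0 + 1) (pderiv ℂ m g) :=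
    Finset.sum_congr rfl fun m _ => mul_comm _ _
  rw [h1, map_sum]
  simp only [coeff_X_mul_dv]
  rw [← Finset.mul_sum, ← map_sum, coeff_euler]
  by_cases h : n = 0
  · subst h
    rw [coeff_zero_eq_constantCoeff_apply, hg]
    simp
  · have h6 : (n.degree : ℂ) ≠ 0 := by
      rw [Nat.cast_ne_zero]
      intro h7
      exact h ((Finsupp.degree_eq_zero_iff n).1 h7)
    rw [Nat.cast_zero, add_zero, inv_mul_cancel_left₀ h6]

/-- **The syzygies of power series with linearly independent linear parts are trivial.** -/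
theorem syz_of_det (g : κ → MvPowerSeries κ ℂ) (hg : ∀ k, constantCoeff (g k) = 0)
    (hdet : (Matrix.of fun k m => constantCoeff (pderiv ℂ m (g k))).det ≠ 0) : Syz g := by
  set M : Matrix κ κ (MvPowerSeries κ ℂ) := Matrix.of fun k m => dv 1 (pderiv ℂ m (g k)) with hM
  have hMdet : IsUnit M.det := by
    rw [MvPowerSeries.isUnit_iff_constantCoeff, isUnit_iff_ne_zero, RingHom.map_det]
    have h1 : (constantCoeff (σ := κ) (R := ℂ)).mapMatrix M =
        Matrix.of fun k m => constantCoeff (pderiv ℂ m (g k)) := by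
      ext k m
      rw [RingHom.mapMatrix_apply, Matrix.map_apply, hM, Matrix.of_apply, Matrix.of_apply,
        ← coeff_zero_eq_constantCoeff_apply, coeff_dv, coeff_zero_eq_constantCoeff_apply]
      simp
    rw [h1]
    exact hdet
  have hgM : ∀ k, g k = ∑ m, M k m * X m := fun k => eq_sum_dv (g k) (hg k)
  intro u hu
  have h1 : ∑ m, (∑ k, u k * M k m) * (X m : MvPowerSeries κ ℂ) = 0 := by
    rw [← hu]
    simp only [Finset.sum_mul]
    rw [Finset.sum_comm]
    refine Finset.sum_congr rfl fun k _ => ?_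
    rw [hgM k, Finset.mul_sum]
    refine Finset.sum_congr rfl fun m _ => ?_
    ring
  obtain ⟨S, hS, hv⟩ := syz_vars _ h1
  have hinv : M * M⁻¹ = 1 := Matrix.mul_nonsing_inv M hMdet
  have hinv' : M⁻¹ * M = 1 := Matrix.nonsing_inv_mul M hMdet
  have hX : ∀ p, (X p : MvPowerSeries κ ℂ) = ∑ l, M⁻¹ p l * g l := by
    intro p
    have h2 : (fun l => g l) = M.mulVec fun m => X m := by
      funext k
      rw [hgM k]
      rfl
    have h3 : M⁻¹.mulVec (fun l => g l) = fun m => X m := by
      rw [h2, Matrix.mulVec_mulVec, hinv', Matrix.one_mulVec]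
    exact (congrFun h3 p).symm
  have hu' : ∀ k, u k = ∑ m, (∑ k, u k * M k m) * M⁻¹ m k := by
    intro k
    have h3 : Matrix.vecMul (Matrix.vecMul u M) M⁻¹ = u := by
      rw [Matrix.vecMul_vecMul, hinv, Matrix.vecMul_one]
    exact (congrFun h3 k).symm
  refine ⟨(M⁻¹.transpose * Matrix.of S * M⁻¹), fun k m => ?_, fun k => ?_⟩
  · have h4 : (M⁻¹.transpose * Matrix.of S * M⁻¹).transpose =
        -(M⁻¹.transpose * Matrix.of S * M⁻¹) := by
      have h5 : (Matrix.of S).transpose = -Matrix.of S := by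
        ext i j
        rw [Matrix.transpose_apply, Matrix.of_apply, Matrix.neg_apply, Matrix.of_apply]
        exact congrArg _ (hS j i)
      rw [Matrix.transpose_mul, Matrix.transpose_mul, Matrix.transpose_transpose, h5,
        Matrix.neg_mul, Matrix.mul_neg, Matrix.mul_assoc]
    have h6 := congrFun (congrFun h4 m) k
    rw [Matrix.transpose_apply, Matrix.neg_apply] at h6
    exact h6
  · rw [hu' k]
    simp only [hv]
    have h7 : ∀ m, (∑ p, S m p * (X p : MvPowerSeries κ ℂ)) * M⁻¹ m k =
        ∑ l, (∑ p, M⁻¹ m k * S m p * M⁻¹ p l) * g l := by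
      intro m
      simp only [Finset.sum_mul]
      rw [Finset.sum_comm]
      refine Finset.sum_congr rfl fun p _ => ?_
      rw [hX p, Finset.mul_sum, Finset.sum_mul]
      refine Finset.sum_congr rfl fun l _ => ?_
      ring
    rw [Finset.sum_congr rfl fun m _ => h7 m, Finset.sum_comm]
    refine Finset.sum_congr rfl fun l _ => ?_
    rw [← Finset.sum_mul]
    congr 1
    rw [Matrix.mul_apply]
    simp only [Matrix.mul_apply, Matrix.transpose_apply, Matrix.of_apply, Finset.sum_mul]
    rw [Finset.sum_comm]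

end Pool.Agent.L5helper26.CP
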