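import Pool.Agent.L5helper26.CP.Lin
import Pool.Agent.N127.PB.Spec
import Pool.Agent.N127.PB.A

set_option autoImplicit false
set_option linter.unusedSectionVars false

/-! # Nondegenerate critical points -/

namespace Pool.Agent.L5helper26.CP

open MvPolynomial Pool.Agent.H628R4.TP Pool.Agent.W574.HS Pool.Agent.N127.PB

theorem pd_comm {κ : Type*} (l m : κ) (a : MvPolynomial κ ℂ) :
    pderiv l (pderiv m a) = pderiv m (pderiv l a) := by
  classical
  induction a using MvPolynomial.induction_on with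
  | C a => simp
  | add p q hp hq => simp only [map_add, hp, hq]
  | mul_X p i hp =>
    have h1 : ∀ l m : κ, pderiv l (pderiv m (X i : MvPolynomial κ ℂ)) = 0 := by
      intro l m
      rw [pderiv_X, Pi.single_apply]
      split_ifs
      · exact pderiv_one
      · exact map_zero _
    simp only [Derivation.leibniz, smul_eq_mul, map_add, h1 l m, h1 m l, mul_zero, hp, zero_add]
    ring

theorem ps_comm {κ : Type*} (l m : κ) (a : MvPowerSeries κ ℂ) :
    MvPowerSeries.pderiv ℂ l (MvPowerSeries.pderiv ℂ m a) =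
      MvPowerSeries.pderiv ℂ m (MvPowerSeries.pderiv ℂ l a) := by
  classical
  ext n
  simp only [MvPowerSeries.coeff_pderiv]
  have h1 : n + Finsupp.single l 1 + Finsupp.single m 1 =
      n + Finsupp.single m 1 + Finsupp.single l 1 := by
    rw [add_assoc, add_assoc, add_comm (Finsupp.single l 1)]
  rw [h1]
  by_cases h : l = m
  · subst h
    rfl
  · simp only [Finsupp.add_apply, Finsupp.single_apply, if_neg h, if_neg (Ne.symm h), add_zero]
    ring

section theta

variable {κ : Type*} [Fintype κ] [DecidableEq κ] (P : κ → ℂ)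

/-- the Taylor expansion at the point `P` -/
noncomputable def tay : MvPolynomial κ ℂ →ₐ[ℂ] MvPowerSeries κ ℂ :=
  aeval fun k => MvPowerSeries.X k + MvPowerSeries.C (P k)

theorem pderiv_tay (k : κ) (p : MvPolynomial κ ℂ) :
    MvPowerSeries.pderiv ℂ k (tay P p) = tay P (pderiv k p) := by
  induction p using MvPolynomial.induction_on with
  | C a =>
    rw [pderiv_C, map_zero]
    have h : tay P (C a) = algebraMap ℂ _ a := by
      rw [tay, aeval_C]
    rw [h, Derivation.map_algebraMap]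
  | add p q hp hq => simp only [map_add, hp, hq]
  | mul_X p i hp =>
    have h1 : MvPowerSeries.pderiv ℂ k (tay P (X i)) = tay P (pderiv k (X i)) := by
      have h2 : tay P (X i) = MvPowerSeries.X i + MvPowerSeries.C (P i) := aeval_X _ _
      rw [h2, map_add, MvPowerSeries.pderiv_C, add_zero]
      by_cases h : i = k
      · subst h
        rw [MvPowerSeries.pderiv_X_self, pderiv_X_self, map_one]
      · rw [MvPowerSeries.pderiv_X_of_ne h, pderiv_X_of_ne h, map_zero]
    rw [map_mul, Derivation.leibniz, Derivation.leibniz, map_add, smul_eq_mul, smul_eq_mul,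
      smul_eq_mul, smul_eq_mul, map_mul, map_mul, hp, h1]

theorem constantCoeff_tay (p : MvPolynomial κ ℂ) :
    MvPowerSeries.constantCoeff (tay P p) = eval P p := by
  have h : (MvPowerSeries.constantCoeff (σ := κ) (R := ℂ)).comp (tay P).toRingHom =
      (eval P : MvPolynomial κ ℂ →+* ℂ) := by
    refine ringHom_ext (fun a => ?_) fun i => ?_
    · rw [RingHom.comp_apply, eval_C]
      change MvPowerSeries.constantCoeff (tay P (C a)) = a
      rw [tay, aeval_C]
      exact MvPowerSeries.constantCoeff_C a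
    · rw [RingHom.comp_apply, eval_X]
      change MvPowerSeries.constantCoeff (tay P (X i)) = P i
      rw [tay, aeval_X, map_add, MvPowerSeries.constantCoeff_X, zero_add,
        MvPowerSeries.constantCoeff_C]
  exact RingHom.congr_fun h p

end theta

/-- the derivative with respect to a variable which does not occur -/
theorem pderiv_rn {κ κ' : Type*} (e : κ → κ') (a : κ') (ha : ∀ t, e t ≠ a) (p : MvPolynomial κ ℂ) :
    pderiv a (rename e p) = 0 := by
  classical
  refine pderiv_eq_zero_of_notMem_vars fun h => ?_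
  obtain ⟨t, _, ht⟩ := Finset.mem_image.1 (vars_rename e p h)
  exact ha t ht

section sub

variable {ι σ τ : Type} [Fintype ι] [Fintype σ] [Fintype τ]

/-- the substitution of polynomials in further variables for the `y_j` -/
noncomputable def psi (y : ι → MvPolynomial τ ℂ) :
    MvPolynomial (ι ⊕ σ) ℂ →ₐ[ℂ] MvPolynomial (σ ⊕ τ) ℂ :=
  aeval (Sum.elim (fun j => rename Sum.inr (y j)) fun l => X (Sum.inl l))

theorem pderiv_psi (y : ι → MvPolynomial τ ℂ) (l : σ) (p : MvPolynomial (ι ⊕ σ) ℂ) :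
    pderiv (Sum.inl l) (psi y p) = psi y (pderiv (Sum.inr l) p) := by
  classical
  induction p using MvPolynomial.induction_on with
  | C a =>
    have h : psi y (C a : MvPolynomial (ι ⊕ σ) ℂ) = C a := aeval_C _ _
    rw [h, pderiv_C, pderiv_C, map_zero]
  | add p q hp hq => simp only [map_add, hp, hq]
  | mul_X p i hp =>
    have h1 : pderiv (Sum.inl l) (psi y (X i : MvPolynomial (ι ⊕ σ) ℂ)) =
        psi y (pderiv (Sum.inr l) (X i)) := by
      have h2 : psi y (X i : MvPolynomial (ι ⊕ σ) ℂ) =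
        Sum.elim (fun j => rename Sum.inr (y j)) (fun l => X (Sum.inl l)) i := aeval_X _ _
      rw [h2]
      rcases i with j | m
      · rw [Sum.elim_inl, pderiv_X_of_ne (by simp), map_zero]
        exact pderiv_rn _ _ (fun t h => by cases h) _
      · rw [Sum.elim_inr]
        by_cases h : m = l
        · subst h
          rw [pderiv_X_self, pderiv_X_self, map_one]
        · rw [pderiv_X_of_ne (fun h3 => h (Sum.inl_injective h3)),
            pderiv_X_of_ne (fun h3 => h (Sum.inr_injective h3)), map_zero]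
    rw [map_mul, Derivation.leibniz, Derivation.leibniz, map_add, smul_eq_mul, smul_eq_mul,
      smul_eq_mul, smul_eq_mul, map_mul, map_mul, hp, h1]

theorem psi_rename (y : ι → MvPolynomial τ ℂ) (p : MvPolynomial σ ℂ) :
    psi y (rename Sum.inr p) = rename Sum.inl p := by
  have h : (psi y).comp (rename Sum.inr : MvPolynomial σ ℂ →ₐ[ℂ] MvPolynomial (ι ⊕ σ) ℂ) =
      (rename Sum.inl : MvPolynomial σ ℂ →ₐ[ℂ] MvPolynomial (σ ⊕ τ) ℂ) := by
    ext1 l
    rw [AlgHom.comp_apply, rename_X, rename_X, psi, aeval_X, Sum.elim_inr]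
  exact AlgHom.congr_fun h p

/-- the polynomial `∑ y_j(z) f_j(x) + q(z)` -/
noncomputable def Ft (f : ι → MvPolynomial σ ℂ) (y : ι → MvPolynomial τ ℂ) (q : MvPolynomial τ ℂ) :
    MvPolynomial (σ ⊕ τ) ℂ :=
  ∑ j, rename Sum.inr (y j) * rename Sum.inl (f j) + rename Sum.inr q

theorem psi_univ (f : ι → MvPolynomial σ ℂ) (y : ι → MvPolynomial τ ℂ) (q : MvPolynomial τ ℂ) :
    psi y (univ f) = Ft f y q - rename Sum.inr q := by
  rw [Ft, add_sub_cancel_right, univ, map_sum]
  refine Finset.sum_congr rfl fun j _ => ?_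
  rw [map_mul, psi_rename]
  congr 1
  exact aeval_X _ _

theorem psi_X (y : ι → MvPolynomial τ ℂ) (l : σ) :
    psi y (X (Sum.inr l) : MvPolynomial (ι ⊕ σ) ℂ) = X (Sum.inl l) := aeval_X _ _

theorem pderiv_Ft (f : ι → MvPolynomial σ ℂ) (y : ι → MvPolynomial τ ℂ) (q : MvPolynomial τ ℂ)
    (l : σ) : pderiv (Sum.inl l) (Ft f y q) = psi y (pderiv (Sum.inr l) (univ f)) := by
  have h : Ft f y q = psi y (univ f) + rename Sum.inr q := by
    rw [psi_univ f y q]
    ring
  rw [h, map_add, pderiv_psi, pderiv_rn _ _ (fun t h => by cases h), add_zero]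

/-- the Euler operator in the variables `x` -/
noncomputable def eul (p : MvPolynomial (ι ⊕ σ) ℂ) : MvPolynomial (ι ⊕ σ) ℂ :=
  ∑ l : σ, X (Sum.inr l) * pderiv (Sum.inr l) p

theorem eul_of_bihom (p : MvPolynomial (ι ⊕ σ) ℂ) (n m : ℕ)
    (hp : IsWeightedHomogeneous (bidegw ι σ) p (n, m)) : eul p = (m : ℂ) • p := by
  classical
  have h1 : IsWeightedHomogeneous (fun k => (bidegw ι σ k).2) p m := by
    intro c hc
    have h2 : (Finsupp.weight (bidegw ι σ) c).2 = m := congrArg Prod.snd (hp hc)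
    rw [← h2, Finsupp.weight_apply, Finsupp.weight_apply, Finsupp.sum, Finsupp.sum, Prod.snd_sum]
    rfl
  have h2 := h1.sum_weight_X_mul_pderiv
  rw [Fintype.sum_sum_type] at h2
  simp only [bidegw, Sum.elim_inl, Sum.elim_inr, zero_smul, Finset.sum_const_zero, zero_add,
    one_smul] at h2
  rw [eul, h2, ← Nat.cast_smul_eq_nsmul ℂ]

theorem eul_pderiv [DecidableEq σ] (p : MvPolynomial (ι ⊕ σ) ℂ) (c : ℂ) (hp : eul p = c • p) (l : σ) :
    eul (pderiv (Sum.inr l) p) = (c - 1) • pderiv (Sum.inr l) p := by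
  classical
  have h := congrArg (pderiv (Sum.inr l)) hp
  rw [eul, map_sum, Derivation.map_smul] at h
  have h1 : ∀ m : σ, pderiv (Sum.inr l) (X (Sum.inr m) * pderiv (Sum.inr m) p :
      MvPolynomial (ι ⊕ σ) ℂ) = X (Sum.inr m) * pderiv (Sum.inr m) (pderiv (Sum.inr l) p) +
      if m = l then pderiv (Sum.inr m) p else 0 := by
    intro m
    rw [Derivation.leibniz, smul_eq_mul, smul_eq_mul, pd_comm (Sum.inr l) (Sum.inr m)]
    congr 1
    by_cases h2 : m = l
    · subst h2
      rw [pderiv_X_self, if_pos rfl, mul_one]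
    · rw [pderiv_X_of_ne (fun h3 => h2 (Sum.inr_injective h3)), if_neg h2, mul_zero]
  rw [Finset.sum_congr rfl fun m _ => h1 m, Finset.sum_add_distrib, Finset.sum_ite_eq',
    if_pos (Finset.mem_univ l)] at h
  rw [eul, sub_smul, one_smul, ← h, add_sub_cancel_right]

/-- **Nondegenerate critical points.** -/
theorem root_crit [DecidableEq σ] [DecidableEq τ] [Nonempty σ] (f : ι → MvPolynomial σ ℂ) (d : ℕ)
    (hd : 0 < d) (hf : ∀ j, (f j).IsHomogeneous d) (α β : ℂ)
    (hα : α * (d : ℂ) = -(Fintype.card σ : ℂ)) (hEN : HasEN f d α β)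
    (y : ι → MvPolynomial τ ℂ) (q : MvPolynomial τ ℂ) (P : σ ⊕ τ → ℂ)
    (hcrit : ∀ k, eval P (pderiv k (Ft f y q)) = 0)
    (hdet : (Matrix.of fun k m => eval P (pderiv m (pderiv k (Ft f y q)))).det ≠ 0) : β = 0 := by
  classical
  obtain ⟨N, V, hV, hEq⟩ := hEN
  have hd0 : (d : ℂ) ≠ 0 := by exact_mod_cast hd.ne'
  let D : σ ⊕ τ → Derivation ℂ (MvPowerSeries (σ ⊕ τ) ℂ) (MvPowerSeries (σ ⊕ τ) ℂ) :=
    fun k => MvPowerSeries.pderiv ℂ k
  let g : σ ⊕ τ → MvPowerSeries (σ ⊕ τ) ℂ := fun k => tay P (pderiv k (Ft f y q))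
  let x : σ ⊕ τ → MvPowerSeries (σ ⊕ τ) ℂ := Sum.elim (fun l => tay P (X (Sum.inl l))) fun _ => 0
  let Φ : MvPolynomial (ι ⊕ σ) ℂ →ₐ[ℂ] MvPowerSeries (σ ⊕ τ) ℂ := (tay P).comp (psi y)
  have hDΦ : ∀ (l : σ) (p : MvPolynomial (ι ⊕ σ) ℂ), D (Sum.inl l) (Φ p) =
      Φ (pderiv (Sum.inr l) p) := by
    intro l p
    change MvPowerSeries.pderiv ℂ (Sum.inl l) (tay P (psi y p)) = _
    rw [pderiv_tay, pderiv_psi]
    rfl
  have hxD : ∀ p : MvPolynomial (ι ⊕ σ) ℂ, ∑ k, x k * D k (Φ p) = Φ (eul p) := by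
    intro p
    rw [Fintype.sum_sum_type]
    have h1 : ∑ k : τ, x (Sum.inr k) * D (Sum.inr k) (Φ p) = 0 :=
      Finset.sum_eq_zero fun k _ => by
        change (0 : MvPowerSeries (σ ⊕ τ) ℂ) * _ = 0
        rw [zero_mul]
    rw [h1, add_zero, eul, map_sum]
    refine Finset.sum_congr rfl fun l _ => ?_
    rw [hDΦ, map_mul]
    congr 1
    change tay P (X (Sum.inl l)) = tay P (psi y (X (Sum.inr l)))
    rw [psi_X]
  have hF : eul (univ f) = (d : ℂ) • univ f := by
    have h1 := eul_of_bihom (univ f) 1 (1 * d) (by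
      have := univ_bihom f d hf
      rwa [one_mul])
    rwa [one_mul] at h1
  have hgl : ∀ l : σ, g (Sum.inl l) = Φ (pderiv (Sum.inr l) (univ f)) := by
    intro l
    change tay P (pderiv (Sum.inl l) (Ft f y q)) = tay P (psi y _)
    rw [pderiv_Ft]
  have hg : ∑ k, g k * x k = (d : ℂ) • Φ (univ f) := by
    rw [Fintype.sum_sum_type]
    have h1 : ∑ k : τ, g (Sum.inr k) * x (Sum.inr k) = 0 :=
      Finset.sum_eq_zero fun k _ => by
        change _ * (0 : MvPowerSeries (σ ⊕ τ) ℂ) = 0
        rw [mul_zero]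
    rw [h1, add_zero, ← map_smul, ← hF, eul, map_sum]
    refine Finset.sum_congr rfl fun l _ => ?_
    rw [hgl, map_mul, mul_comm]
    congr 1
    change tay P (X (Sum.inl l)) = tay P (psi y (X (Sum.inr l)))
    rw [psi_X]
  let W : σ ⊕ τ → MvPowerSeries (σ ⊕ τ) ℂ := Sum.elim (fun l => Φ (V l)) fun _ => 0
  have hW : ∑ k, D k (W k) = Φ (∑ l, pderiv (Sum.inr l) (V l)) := by
    rw [Fintype.sum_sum_type]
    have h1 : ∑ k : τ, D (Sum.inr k) (W (Sum.inr k)) = 0 :=
      Finset.sum_eq_zero fun k _ => map_zero _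
    rw [h1, add_zero, map_sum]
    exact Finset.sum_congr rfl fun l _ => hDΦ l (V l)
  have hgW : ∑ k, g k * W k = Φ (∑ l, V l * pderiv (Sum.inr l) (univ f)) := by
    rw [Fintype.sum_sum_type]
    have h1 : ∑ k : τ, g (Sum.inr k) * W (Sum.inr k) = 0 :=
      Finset.sum_eq_zero fun k _ => by
        change _ * (0 : MvPowerSeries (σ ⊕ τ) ℂ) = 0
        rw [mul_zero]
    rw [h1, add_zero, map_sum]
    refine Finset.sum_congr rfl fun l _ => ?_
    rw [hgl, map_mul, mul_comm]
    rfl
  have hE : eul (∑ l, pderiv (Sum.inr l) (V l)) =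
      ((d : ℂ) * N) • ∑ l, pderiv (Sum.inr l) (V l) := by
    have h1 : ∀ l : σ, eul (pderiv (Sum.inr l) (V l)) = ((d : ℂ) * N) • pderiv (Sum.inr l) (V l) := by
      intro l
      rw [eul_pderiv (V l) _ (eul_of_bihom (V l) _ _ (hV l)) l]
      congr 1
      push_cast
      ring
    have h2 : eul (∑ l, pderiv (Sum.inr l) (V l)) = ∑ l : σ, eul (pderiv (Sum.inr l) (V l)) := by
      simp only [eul, map_sum, Finset.mul_sum]
      exact Finset.sum_comm
    rw [h2, Finset.smul_sum]
    exact Finset.sum_congr rfl fun l _ => h1 l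
  have hx : ∑ k, D k (x k) = algebraMap ℂ (MvPowerSeries (σ ⊕ τ) ℂ) (Fintype.card σ : ℂ) := by
    rw [Fintype.sum_sum_type]
    have h1 : ∑ k : τ, D (Sum.inr k) (x (Sum.inr k)) = 0 :=
      Finset.sum_eq_zero fun k _ => map_zero _
    have h2 : ∀ l : σ, D (Sum.inl l) (x (Sum.inl l)) = 1 := by
      intro l
      change MvPowerSeries.pderiv ℂ (Sum.inl l) (tay P (X (Sum.inl l))) = 1
      rw [pderiv_tay, pderiv_X_self, map_one]
    rw [h1, add_zero, Finset.sum_congr rfl fun l _ => h2 l, Finset.sum_const, Finset.card_univ,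
      nsmul_eq_mul, mul_one, map_natCast]
  have heq : β • Φ (univ f) ^ (N + 1) = Φ (univ f) * ∑ k, D k (W k) +
      (α - N) • ∑ k, g k * W k := by
    rw [hW, hgW, ← map_mul, ← map_smul, ← map_add, ← map_pow, ← map_smul]
    congr 1
    rw [smul_eq_C_mul, hEq, Finset.sum_add_distrib, Finset.mul_sum, smul_eq_C_mul, Finset.mul_sum]
    congr 1
    exact Finset.sum_congr rfl fun l _ => mul_assoc _ _ _
  have h1 := inIm_const (D := D) (g := g) x (Φ (univ f)) d (Fintype.card σ) α β N hd0 hα hx hg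
    (by rw [hxD, hF, map_smul]) W (by rw [hW, hxD, hE, map_smul]) heq
  have h2 := const_mem (D := D) (g := g) (fun k m a => ps_comm k m a)
    (fun k m => by
      change MvPowerSeries.pderiv ℂ k (tay P (pderiv m (Ft f y q))) =
        MvPowerSeries.pderiv ℂ m (tay P (pderiv k (Ft f y q)))
      rw [pderiv_tay, pderiv_tay, pd_comm])
    (syz_of_det g (fun k => by
      change MvPowerSeries.constantCoeff (tay P (pderiv k (Ft f y q))) = 0
      rw [constantCoeff_tay]
      exact hcrit k) (by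
      have h3 : (Matrix.of fun k m => MvPowerSeries.constantCoeff
          (MvPowerSeries.pderiv ℂ m (g k))) =
          Matrix.of fun k m => eval P (pderiv m (pderiv k (Ft f y q))) := by
        ext k m
        rw [Matrix.of_apply, Matrix.of_apply]
        change MvPowerSeries.constantCoeff (MvPowerSeries.pderiv ℂ m
          (tay P (pderiv k (Ft f y q)))) = _
        rw [pderiv_tay, constantCoeff_tay]
      rw [h3]
      exact hdet)) _ h1
  have h3 : Ideal.span (Set.range g) ≤
      RingHom.ker (MvPowerSeries.constantCoeff (σ := σ ⊕ τ) (R := ℂ)) := by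
    rw [Ideal.span_le]
    rintro _ ⟨k, rfl⟩
    rw [SetLike.mem_coe, RingHom.mem_ker]
    change MvPowerSeries.constantCoeff (tay P (pderiv k (Ft f y q))) = 0
    rw [constantCoeff_tay]
    exact hcrit k
  have h4 := h3 h2
  rw [RingHom.mem_ker, MvPowerSeries.algebraMap_apply, Algebra.algebraMap_self_apply,
    MvPowerSeries.constantCoeff_C] at h4
  refine (mul_eq_zero.1 h4).resolve_right (Finset.prod_ne_zero_iff.2 fun i _ h5 => ?_)
  have h6 : ((i * d + Fintype.card σ : ℕ) : ℂ) = 0 := by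
    push_cast
    linear_combination (d : ℂ) * h5 + hα
  have h7 : i * d + Fintype.card σ = 0 := by exact_mod_cast h6
  have h8 : 0 < Fintype.card σ := Fintype.card_pos
  omega

end sub

end Pool.Agent.L5helper26.CP
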