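import Pool.Agent.L5helper26.CP.Nod
import Pool.Agent.W366.SI.I1
import Pool.Agent.N127.PB.AI
import Pool.Agent.W574.HS.Form

set_option autoImplicit false
set_option linter.unusedSectionVars false

/-! # The root `-n/d`, and sufficient conditions for the criterion -/

namespace Pool.Agent.L5helper26.CP

open MvPolynomial Pool.Agent.H628R4.TP Pool.Agent.W574.HS Pool.Agent.N127.PB Pool.Agent.W574.SM

variable {ι σ : Type} [Fintype ι] [Fintype σ] [DecidableEq σ]

theorem hasEN_root (f : ι → MvPolynomial σ ℂ) (d : ℕ) (hd : 0 < d) [Nonempty σ] (α β : ℂ)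
    (hα : α * (d : ℂ) = -(Fintype.card σ : ℂ)) (hEN : HasEN f d α β) (h : RootCrit f d) :
    β = 0 := by
  classical
  obtain ⟨τ, _, G, ⟨K, e, y, hKe, hGe, hG⟩, h | ⟨q, P, hP⟩⟩ := h
  · exact root_gen f d hd α β hα hEN K e hKe G hGe y hG h
  · exact root_iso f d hd α β hα hEN K e hKe G hGe y hG q P hP

/-- the criterion does not hold if all `f_j` are zero -/
theorem RootCrit.ne_zero [Nonempty σ] {f : ι → MvPolynomial σ ℂ} {d : ℕ} (hd : 0 < d)
    (h : RootCrit f d) : ∃ j, f j ≠ 0 := by
  classical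
  by_contra hf
  push Not at hf
  obtain ⟨τ, _, G, ⟨K, e, y, hKe, hGe, hG⟩, h⟩ := h
  have hK : K ≠ 0 := fun h => by rw [h, zero_mul] at hKe; omega
  have hG0 : G = 0 := by
    rw [Finset.sum_eq_zero fun j _ => by rw [hf j, map_zero, mul_zero]] at hG
    exact (pow_eq_zero_iff hK).1 hG
  obtain ⟨l⟩ := ‹Nonempty σ›
  rcases h with h | ⟨q, P, hP⟩
  · refine h ⟨Pi.single l (X (Sum.inl l)), ?_⟩
    rw [hG0]
    simp only [map_zero, mul_zero, add_zero]
    rw [Finset.sum_eq_single l]
    · rw [Pi.single_eq_same, pderiv_X_self]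
    · intro m _ hm
      rw [Pi.single_eq_of_ne hm, map_zero]
    · intro h
      exact absurd (Finset.mem_univ _) h
  · have hsyz := syz_iso (G + rename Sum.inr q) P hP
    have h1 : pderiv (Sum.inl l : σ ⊕ τ) (G + rename Sum.inr q) = 0 := by
      rw [hG0, zero_add]
      exact pderiv_rn _ _ (fun t h => by cases h) _
    obtain ⟨S, -, hS⟩ := hsyz (Pi.single (Sum.inl l) 1) (by
      rw [Finset.sum_eq_single (Sum.inl l)]
      · beta_reduce
        rw [h1, map_zero, mul_zero]
      · intro m _ hm
        rw [Pi.single_eq_of_ne hm, zero_mul]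
      · intro h
        exact absurd (Finset.mem_univ _) h)
    have h2 := hS (Sum.inl l)
    rw [Pi.single_eq_same] at h2
    have hmem : ∀ k, algebraMap (MvPolynomial (σ ⊕ τ) ℂ) (Rl P)
        (pderiv k (G + rename Sum.inr q)) ∈ IsLocalRing.maximalIdeal (Rl P) := by
      intro k
      have h3 : pderiv k (G + rename Sum.inr q) ∈
          RingHom.ker (eval P : MvPolynomial (σ ⊕ τ) ℂ →+* ℂ) :=
        hP.1.2 (Ideal.subset_span ⟨k, rfl⟩)
      have h4 : (RingHom.ker (eval P : MvPolynomial (σ ⊕ τ) ℂ →+* ℂ)).map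
          (algebraMap _ (Rl P)) = IsLocalRing.maximalIdeal (Rl P) :=
        Localization.AtPrime.map_eq_maximalIdeal
      rw [← h4]
      exact Ideal.mem_map_of_mem _ h3
    have h3 : (1 : Rl P) ∈ IsLocalRing.maximalIdeal (Rl P) := by
      rw [h2]
      exact Ideal.sum_mem _ fun m _ => Ideal.mul_mem_left _ _ (hmem m)
    exact (Ideal.ne_top_iff_one _).1 (IsLocalRing.maximalIdeal.isMaximal (Rl P)).ne_top h3

/-- **The root `-n/d`.** -/
theorem root_main [Nonempty σ] (f : ι → MvPolynomial σ ℂ) (d : ℕ) (hd : 0 < d)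
    (hf : ∀ j, (f j).IsHomogeneous d) (b : Polynomial ℂ) (hb : IsFunctionalEq f b)
    (h : RootCrit f d) : b.eval (-(Fintype.card σ : ℂ) / d) = 0 := by
  classical
  obtain ⟨j, hj⟩ := h.ne_zero hd
  have hd0 : (d : ℂ) ≠ 0 := by exact_mod_cast hd.ne'
  have h1 := stmAI f d hd hf (univ_ne_zero _ ⟨j, hj⟩) b
    (Pool.Agent.W366.SI.taskI1' f b hb) (-(Fintype.card σ : ℂ) / d)
  exact hasEN_root f d hd _ _ (by field_simp) h1 h

/-- the weights: the degree in `x` -/
abbrev xw (σ τ : Type) : σ ⊕ τ → ℕ := Sum.elim (fun _ => 1) fun _ => 0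

theorem hom_rename {τ : Type} (F : MvPolynomial σ ℂ) (e : ℕ) (hF : F.IsHomogeneous e) :
    IsWeightedHomogeneous (xw σ τ) (rename Sum.inl F : MvPolynomial (σ ⊕ τ) ℂ) e := by
  intro c hc
  obtain ⟨u, hu, hu0⟩ := coeff_rename_ne_zero _ _ _ hc
  have h3 := hF hu0
  rw [← hu]
  have h4 : ∀ v : σ →₀ ℕ, Finsupp.weight (xw σ τ) (v.mapDomain Sum.inl) =
      Finsupp.weight (1 : σ → ℕ) v := by
    intro v
    induction v using Finsupp.induction_linear with
    | zero => simp
    | add v v' h h' => rw [Finsupp.mapDomain_add, map_add, map_add, h, h']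
    | single a b =>
      rw [Finsupp.mapDomain_single, Finsupp.weight_single, Finsupp.weight_single]
      simp [xw]
  rw [h4]
  exact h3

theorem hom_param {τ : Type} (p : MvPolynomial τ ℂ) :
    IsWeightedHomogeneous (xw σ τ) (rename Sum.inr p : MvPolynomial (σ ⊕ τ) ℂ) 0 := by
  intro c hc
  obtain ⟨u, hu, _⟩ := coeff_rename_ne_zero _ _ _ hc
  rw [← hu]
  have h4 : ∀ v : τ →₀ ℕ, Finsupp.weight (xw σ τ) (v.mapDomain Sum.inr) = 0 := by
    intro v
    induction v using Finsupp.induction_linear with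
    | zero => simp
    | add v v' h h' => rw [Finsupp.mapDomain_add, map_add, h, h', add_zero]
    | single a b =>
      rw [Finsupp.mapDomain_single, Finsupp.weight_single]
      simp [xw]
  exact h4 u

/-- the combinations with polynomials in the parameters as coefficients -/
theorem isRootOfMember_one {τ : Type} (f : ι → MvPolynomial σ ℂ) (d : ℕ)
    (hf : ∀ j, (f j).IsHomogeneous d) (y : ι → MvPolynomial τ ℂ) (G : MvPolynomial (σ ⊕ τ) ℂ)
    (hG : G = ∑ j, rename Sum.inr (y j) * rename Sum.inl (f j)) : IsRootOfMember f d G := by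
  refine ⟨1, d, y, one_mul d, ?_, by rw [pow_one]; exact hG⟩
  rw [hG]
  refine IsWeightedHomogeneous.sum _ _ _ fun j _ => ?_
  have h := (hom_param (σ := σ) (y j)).mul (hom_rename (τ := τ) (f j) d (hf j))
  rwa [zero_add] at h

/-- **An isolated singular point of a member of the linear system, outside of the base locus.** -/
theorem crit_node (f : ι → MvPolynomial σ ℂ) (d : ℕ) (hd : 0 < d)
    (hf : ∀ j, (f j).IsHomogeneous d) (a : ι → ℂ) (p : σ → ℂ)
    (hp : IsIsolatedSingular (∑ j, C (a j) * f j) p) (hbase : ∃ j, eval p (f j) ≠ 0) :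
    RootCrit f d := by
  classical
  obtain ⟨j0, hj0⟩ := hbase
  let y : ι → MvPolynomial Unit ℂ := fun j => C (a j) + if j = j0 then X () else 0
  let q : MvPolynomial Unit ℂ := C (-eval p (f j0)) * X ()
  have hG : ∑ j, rename Sum.inr (y j) * rename Sum.inl (f j) =
      (rename Sum.inl (∑ j, C (a j) * f j) + X (Sum.inr ()) * rename Sum.inl (f j0) :
        MvPolynomial (σ ⊕ Unit) ℂ) := by
    have h1 : ∀ j, (rename Sum.inr (y j) * rename Sum.inl (f j) : MvPolynomial (σ ⊕ Unit) ℂ) =
        C (a j) * rename Sum.inl (f j) +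
          if j = j0 then X (Sum.inr ()) * rename Sum.inl (f j) else 0 := by
      intro j
      by_cases h : j = j0
      · simp only [y, if_pos h, map_add, rename_C, rename_X, add_mul]
      · simp only [y, if_neg h, add_zero, rename_C]
    rw [Finset.sum_congr rfl fun j _ => h1 j, Finset.sum_add_distrib, Finset.sum_ite_eq',
      if_pos (Finset.mem_univ j0), map_sum]
    simp only [map_mul, rename_C]
  refine ⟨Unit, inferInstance, _, isRootOfMember_one f d hf y _ rfl, Or.inr ⟨q, Sum.elim p fun _ => 0, ?_⟩⟩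
  have h2 := isolated_node (∑ j, C (a j) * f j) (f j0) d hd
    (IsHomogeneous.sum _ _ _ fun j _ => by
      have h := (isHomogeneous_C σ (a j)).mul (hf j)
      rwa [zero_add] at h) (hf j0) p hp _ rfl hj0
  rw [hG]
  simp only [q, map_mul, rename_C, rename_X]
  exact h2

/-- **`n` of the forms with a nonzero Jacobian determinant.** -/
theorem crit_jac (f : ι → MvPolynomial σ ℂ) (d : ℕ)
    (hf : ∀ j, (f j).IsHomogeneous d) (e : σ → ι)
    (hdet : (Matrix.of fun s t => pderiv s (f (e t))).det ≠ 0) : RootCrit f d := by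
  classical
  obtain ⟨p, hp⟩ : ∃ p : σ → ℂ, eval p (Matrix.of fun s t => pderiv s (f (e t))).det ≠ 0 := by
    by_contra h
    push Not at h
    exact hdet (MvPolynomial.funext fun p => by rw [h p, map_zero])
  let y : ι → MvPolynomial σ ℂ := fun j => ∑ s, if e s = j then X s else 0
  let q : MvPolynomial σ ℂ := ∑ s, C (-eval p (f (e s))) * X s
  have hG : ∑ j, rename Sum.inr (y j) * rename Sum.inl (f j) =
      (∑ s, X (Sum.inr s) * rename Sum.inl (f (e s)) : MvPolynomial (σ ⊕ σ) ℂ) := by
    have h1 : ∀ j, (rename Sum.inr (y j) * rename Sum.inl (f j) : MvPolynomial (σ ⊕ σ) ℂ) =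
        ∑ s, if e s = j then X (Sum.inr s) * rename Sum.inl (f (e s)) else 0 := by
      intro j
      simp only [y, map_sum, Finset.sum_mul]
      refine Finset.sum_congr rfl fun s _ => ?_
      by_cases h : e s = j
      · rw [if_pos h, if_pos h, rename_X, h]
      · rw [if_neg h, if_neg h, map_zero, zero_mul]
    rw [Finset.sum_congr rfl fun j _ => h1 j, Finset.sum_comm]
    refine Finset.sum_congr rfl fun s _ => ?_
    rw [Finset.sum_ite_eq, if_pos (Finset.mem_univ _)]
  refine ⟨σ, inferInstance, _, isRootOfMember_one f d hf y _ rfl,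
    Or.inr ⟨q, Sum.elim p fun _ => 0, ?_⟩⟩
  rw [hG]
  set H : MvPolynomial (σ ⊕ σ) ℂ :=
    ∑ s, X (Sum.inr s) * rename Sum.inl (f (e s)) + rename Sum.inr q with hH
  have hr : ∀ (l : σ) (a : MvPolynomial σ ℂ), pderiv (Sum.inl l : σ ⊕ σ) (rename Sum.inl a) =
      rename Sum.inl (pderiv l a) := fun l a => pderiv_rename Sum.inl_injective l a
  have hr0 : ∀ (l : σ) (a : MvPolynomial σ ℂ), pderiv (Sum.inr l : σ ⊕ σ) (rename Sum.inl a) = 0 :=
    fun l a => pderiv_rn _ _ (fun t h => by cases h) _
  have hev : ∀ a : MvPolynomial σ ℂ, eval (Sum.elim p fun _ => 0 : σ ⊕ σ → ℂ)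
      (rename Sum.inl a) = eval p a := by
    intro a
    rw [eval_rename]
    rfl
  have h1 : ∀ l : σ, pderiv (Sum.inl l) H =
      ∑ s, X (Sum.inr s) * rename Sum.inl (pderiv l (f (e s))) := by
    intro l
    rw [hH, map_add, pderiv_rn _ _ (fun t h => by cases h) q, add_zero, map_sum]
    refine Finset.sum_congr rfl fun s _ => ?_
    rw [Derivation.leibniz, pderiv_X_of_ne (by simp), hr, smul_zero, add_zero, smul_eq_mul]
  have h2 : ∀ t : σ, pderiv (Sum.inr t) H =
      rename Sum.inl (f (e t)) - C (eval p (f (e t))) := by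
    intro t
    have h3 : ∀ s : σ, pderiv (Sum.inr t) (X (Sum.inr s) * rename Sum.inl (f (e s)) :
        MvPolynomial (σ ⊕ σ) ℂ) = if s = t then rename Sum.inl (f (e s)) else 0 := by
      intro s
      rw [Derivation.leibniz, hr0, smul_zero, zero_add, smul_eq_mul]
      by_cases h : s = t
      · subst h
        rw [pderiv_X_self, mul_one, if_pos rfl]
      · rw [pderiv_X_of_ne (fun h4 => h (Sum.inr_injective h4)), mul_zero, if_neg h]
    have h4 : ∀ s : σ, pderiv (Sum.inr t) (rename Sum.inr (C (-eval p (f (e s))) * X s) :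
        MvPolynomial (σ ⊕ σ) ℂ) = if s = t then C (-eval p (f (e s))) else 0 := by
      intro s
      rw [map_mul, rename_C, rename_X, Derivation.leibniz, pderiv_C, smul_zero, add_zero,
        smul_eq_mul]
      by_cases h : s = t
      · subst h
        rw [pderiv_X_self, mul_one, if_pos rfl]
      · rw [pderiv_X_of_ne (fun h4 => h (Sum.inr_injective h4)), mul_zero, if_neg h]
    rw [hH, map_add, map_sum, Finset.sum_congr rfl fun s _ => h3 s, Finset.sum_ite_eq',
      if_pos (Finset.mem_univ t), map_sum, map_sum, Finset.sum_congr rfl fun s _ => h4 s,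
      Finset.sum_ite_eq', if_pos (Finset.mem_univ t), map_neg, ← sub_eq_add_neg]
  refine isolated_of_det H _ (fun k => ?_) ?_
  · rcases k with l | t
    · rw [h1, map_sum]
      refine Finset.sum_eq_zero fun s _ => ?_
      rw [map_mul, eval_X, Sum.elim_inr, zero_mul]
    · rw [h2, map_sub, hev, eval_C, sub_self]
  · set A : Matrix σ σ ℂ := Matrix.of fun s t => eval p (pderiv s (f (e t))) with hA
    have hAdet : A.det ≠ 0 := by
      rw [RingHom.map_det] at hp
      exact hp
    have h5 : (Matrix.of fun k m => eval (Sum.elim p fun _ => 0 : σ ⊕ σ → ℂ)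
        (pderiv m (pderiv k H))) = Matrix.fromBlocks 0 A A.transpose 0 := by
      ext k m
      rw [Matrix.of_apply]
      rcases k with l | t <;> rcases m with l' | t'
      · rw [Matrix.fromBlocks_apply₁₁, h1, map_sum, map_sum, Matrix.zero_apply]
        refine Finset.sum_eq_zero fun s _ => ?_
        rw [Derivation.leibniz, pderiv_X_of_ne (by simp), smul_zero, add_zero, smul_eq_mul,
          map_mul, eval_X, Sum.elim_inr, zero_mul]
      · rw [Matrix.fromBlocks_apply₁₂, h1, map_sum, map_sum, Finset.sum_eq_single t']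
        · rw [Derivation.leibniz, pderiv_X_self, hr0, smul_zero, zero_add, smul_eq_mul, mul_one,
            hev, hA, Matrix.of_apply]
        · intro s _ hs
          rw [Derivation.leibniz, hr0, smul_zero, zero_add, smul_eq_mul,
            pderiv_X_of_ne (fun h4 => hs (Sum.inr_injective h4)), mul_zero, map_zero]
        · intro h
          exact absurd (Finset.mem_univ _) h
      · rw [Matrix.fromBlocks_apply₂₁, h2, map_sub, pderiv_C, sub_zero, hr, hev,
          Matrix.transpose_apply, hA, Matrix.of_apply]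
      · rw [Matrix.fromBlocks_apply₂₂, h2, map_sub, pderiv_C, sub_zero, hr0, map_zero,
          Matrix.zero_apply]
    rw [h5]
    have hAu : IsUnit A.det := isUnit_iff_ne_zero.2 hAdet
    have h6 : Matrix.fromBlocks 0 A A.transpose 0 *
        Matrix.fromBlocks 0 (A⁻¹).transpose A⁻¹ 0 = 1 := by
      rw [Matrix.fromBlocks_multiply, Matrix.mul_nonsing_inv A hAu, ← Matrix.transpose_mul,
        Matrix.nonsing_inv_mul A hAu]
      simp only [Matrix.zero_mul, Matrix.mul_zero, zero_add, add_zero, Matrix.transpose_one]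
      exact Matrix.fromBlocks_one
    intro h7
    have h8 := congrArg Matrix.det h6
    rw [Matrix.det_mul, h7, zero_mul, Matrix.det_one] at h8
    exact zero_ne_one h8

/-- **A power of a form without critical points.** -/
theorem crit_smooth (f : ι → MvPolynomial σ ℂ) (d K e : ℕ) (hKe : K * e = d) (he : 2 ≤ e)
    (F : MvPolynomial σ ℂ) (hF : F.IsHomogeneous e)
    (hz : ∀ v : σ → ℂ, (∀ k, eval v (pderiv k F) = 0) → v = 0) (a : ι → ℂ)
    (hFK : F ^ K = ∑ j, C (a j) * f j) : RootCrit f d := by
  classical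
  refine ⟨Empty, inferInstance, rename Sum.inl F, ⟨K, e, fun j => C (a j), hKe,
    hom_rename F e hF, ?_⟩, Or.inr ⟨0, fun _ => 0, ?_⟩⟩
  · rw [← map_pow, hFK, map_sum]
    simp only [map_mul, rename_C]
  · have hr : ∀ (l : σ) (a : MvPolynomial σ ℂ), pderiv (Sum.inl l : σ ⊕ Empty)
        (rename Sum.inl a) = rename Sum.inl (pderiv l a) :=
      fun l a => pderiv_rename Sum.inl_injective l a
    rw [map_zero, add_zero]
    refine isolated_of_unique _ _ (fun k => ?_) fun v hv => ?_
    · rcases k with l | t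
      · rw [hr, eval_rename]
        have h1 : ((fun _ => 0 : σ ⊕ Empty → ℂ) ∘ Sum.inl) = (0 : σ → ℂ) := rfl
        rw [h1, eval_zero, constantCoeff_eq]
        refine (hF.pderiv (i := l)).coeff_eq_zero ?_
        rw [map_zero]
        omega
      · exact t.elim
    · have h1 := hz (v ∘ Sum.inl) fun k => by
        have h2 := hv (Sum.inl k)
        rwa [hr, eval_rename] at h2
      funext k
      rcases k with l | t
      · exact congrFun h1 l
      · exact t.elim

end Pool.Agent.L5helper26.CP
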