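import Mathlib

set_option autoImplicit false

/-! # The criterion for the root `-n/d`: definitions -/

namespace Pool.Agent.L5helper26.CP

open MvPolynomial

/-- `P` is an isolated critical point of the polynomial `H`: its maximal ideal is a minimal prime over the
ideal generated by the partial derivatives of `H`. -/
def IsIsolatedCritical {κ : Type} (H : MvPolynomial κ ℂ) (P : κ → ℂ) : Prop :=
  RingHom.ker (eval P : MvPolynomial κ ℂ →+* ℂ) ∈
    (Ideal.span (Set.range fun k => pderiv k H)).minimalPrimes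

/-- The form `dx` is exact for the operators `∂/∂x_l + ∂G/∂x_l`, where `G = G(x, z)`, with the variables
`x_l`, `l ∈ σ`, and the parameters `z_t`, `t ∈ τ`. -/
def IsExact {σ τ : Type} [Fintype σ] (G : MvPolynomial (σ ⊕ τ) ℂ) : Prop :=
  ∃ W : σ → MvPolynomial (σ ⊕ τ) ℂ,
    ∑ l, (pderiv (Sum.inl l) (W l) + W l * pderiv (Sum.inl l) G) = 1

/-- `G = G(x, z)` is homogeneous of degree `e` in `x`, and `G ^ K = ∑ y_j(z) f_j(x)` with polynomials `y_j`
in `z`, where `K e = d`. -/
def IsRootOfMember {ι σ τ : Type} [Fintype ι] (f : ι → MvPolynomial σ ℂ) (d : ℕ)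
    (G : MvPolynomial (σ ⊕ τ) ℂ) : Prop :=
  ∃ (K e : ℕ) (y : ι → MvPolynomial τ ℂ), K * e = d ∧
    IsWeightedHomogeneous (Sum.elim (fun _ => 1) fun _ => 0 : σ ⊕ τ → ℕ) G e ∧
    G ^ K = ∑ j, rename Sum.inr (y j) * rename Sum.inl (f j)

/-- **The criterion.** For some finite set of parameters `z` and some `G(x, z)` with
`IsRootOfMember f d G`, either `dx` is not exact for `G`, or `G(x, z) + q(z)` has an isolated critical
point for some polynomial `q`. -/
def RootCrit {ι σ : Type} [Fintype ι] [Fintype σ] (f : ι → MvPolynomial σ ℂ) (d : ℕ) : Prop :=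
  ∃ (τ : Type) (_ : Fintype τ) (G : MvPolynomial (σ ⊕ τ) ℂ), IsRootOfMember f d G ∧
    (¬ IsExact G ∨ ∃ (q : MvPolynomial τ ℂ) (P : σ ⊕ τ → ℂ),
      IsIsolatedCritical (G + rename Sum.inr q) P)

/-- the ideal of the line `ℂ p` -/
noncomputable def lineIdeal {σ : Type} (p : σ → ℂ) : Ideal (MvPolynomial σ ℂ) :=
  RingHom.ker (aeval fun k => Polynomial.C (p k) * Polynomial.X : MvPolynomial σ ℂ →ₐ[ℂ] Polynomial ℂ)

/-- `p` is an isolated singular point of the hypersurface `F = 0` in the projective space: the ideal of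
the line `ℂ p` is a minimal prime over the ideal of the partial derivatives. -/
def IsIsolatedSingular {σ : Type} (F : MvPolynomial σ ℂ) (p : σ → ℂ) : Prop :=
  lineIdeal p ∈ (Ideal.span (Set.range fun k => pderiv k F)).minimalPrimes

end Pool.Agent.L5helper26.CP
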