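import Pool.Agent.L5helper26.CP.Root

set_option autoImplicit false
set_option linter.unusedSectionVars false

/-! # The class of `dx` in the relative twisted de Rham cohomology -/

namespace Pool.Agent.L5helper26.CP

open MvPolynomial Pool.Agent.H628R4.TP Pool.Agent.W574.HS Pool.Agent.N127.PB

variable {ι σ τ : Type} [Fintype ι] [Fintype σ] [Fintype τ]

/-- evaluation of the variable `τ` at `-1` -/
theorem exact_of_inIm {A : Type*} [CommRing A] [Algebra ℂ A] {κ : Type*} [Fintype κ]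
    {D : κ → Derivation ℂ A A} {g : κ → A} (c : A) (h : InIm D g (sg 0 c)) :
    ∃ W : κ → A, ∑ k, (D k (W k) + W k * g k) = c := by
  obtain ⟨N, W, hN, hW⟩ := h
  refine ⟨fun k => ∑ i ∈ Finset.range (N + 1), (-1 : ℂ) ^ i • W i k, ?_⟩
  have h1 : ∀ M : ℕ, ∑ i ∈ Finset.range (M + 1), (-1 : ℂ) ^ i • tf D g W i =
      ∑ i ∈ Finset.range (M + 1), (-1 : ℂ) ^ i • ∑ k, (D k (W i k) + W i k * g k) -
        (-1 : ℂ) ^ M • ∑ k, W M k * g k := by
    intro M
    induction M with
    | zero =>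
      rw [Finset.sum_range_one, Finset.sum_range_one, pow_zero, one_smul, one_smul, one_smul,
        Finset.sum_add_distrib, add_sub_cancel_right, tf]
    | succ M ih =>
      rw [Finset.sum_range_succ, ih, Finset.sum_range_succ _ (M + 1), tf]
      have h2 : ∑ k, g k * W M k = ∑ k, W M k * g k :=
        Finset.sum_congr rfl fun k _ => mul_comm _ _
      rw [h2, Finset.sum_add_distrib, pow_succ, mul_neg_one]
      simp only [smul_add, smul_sub, neg_smul]
      ring
  have h3 := h1 (N + 1)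
  have h4 : ∑ k, W (N + 1) k * g k = 0 := by
    rw [hN (N + 1) (by omega)]
    simp
  rw [h4, smul_zero, sub_zero] at h3
  have h5 : ∑ i ∈ Finset.range (N + 1 + 1), (-1 : ℂ) ^ i • tf D g W i = c := by
    rw [Finset.sum_eq_single 0]
    · rw [← hW 0, pow_zero, one_smul]
      rfl
    · intro i _ hi
      rw [← hW i]
      have : sg 0 c i = 0 := if_neg hi
      rw [this, smul_zero]
    · intro h
      exact absurd (Finset.mem_range.2 (by omega)) h
  rw [h5, Finset.sum_range_succ _ (N + 1)] at h3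
  have h6 : ∑ k, (D k (W (N + 1) k) + W (N + 1) k * g k) = 0 := by
    rw [hN (N + 1) (by omega)]
    simp
  rw [h6, smul_zero, add_zero] at h3
  rw [h3]
  simp only [map_sum, Derivation.map_smul, Finset.sum_mul, smul_mul_assoc, Finset.smul_sum,
    Finset.sum_add_distrib, smul_add]
  rw [Finset.sum_comm, Finset.sum_comm (s := Finset.univ) (t := Finset.range (N + 1))]

/-- **The general criterion.** If a power `G ^ K` is a combination `∑ y_j(z) f_j(x)` and `dx` is not exact
for `G`, then `-n/d` is a root. -/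
theorem root_gen [DecidableEq σ] [Nonempty σ] (f : ι → MvPolynomial σ ℂ) (d : ℕ)
    (hd : 0 < d) (α β : ℂ) (hα : α * (d : ℂ) = -(Fintype.card σ : ℂ))
    (hEN : HasEN f d α β) (K e : ℕ) (hKe : K * e = d) (G : MvPolynomial (σ ⊕ τ) ℂ)
    (hGe : IsWeightedHomogeneous (Sum.elim (fun _ => 1) fun _ => 0 : σ ⊕ τ → ℕ) G e)
    (y : ι → MvPolynomial τ ℂ)
    (hG : G ^ K = ∑ j, rename Sum.inr (y j) * rename Sum.inl (f j)) (hex : ¬ IsExact G) :
    β = 0 := by
  classical
  obtain ⟨N, V, hV, hEq⟩ := hEN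
  have hK : 0 < K := Nat.pos_of_ne_zero fun h => by rw [h, zero_mul] at hKe; omega
  have he : 0 < e := Nat.pos_of_ne_zero fun h => by rw [h, mul_zero] at hKe; omega
  have he0 : (e : ℂ) ≠ 0 := by exact_mod_cast he.ne'
  have hd0 : (d : ℂ) ≠ 0 := by exact_mod_cast hd.ne'
  have hG0 : G ≠ 0 := by
    intro h0
    obtain ⟨l⟩ := ‹Nonempty σ›
    refine hex ⟨Pi.single l (X (Sum.inl l)), ?_⟩
    rw [h0]
    simp only [map_zero, mul_zero, add_zero]
    rw [Finset.sum_eq_single l]
    · rw [Pi.single_eq_same, pderiv_X_self]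
    · intro m _ hm
      rw [Pi.single_eq_of_ne hm, map_zero]
    · intro h
      exact absurd (Finset.mem_univ _) h
  let D : σ → Derivation ℂ (MvPolynomial (σ ⊕ τ) ℂ) (MvPolynomial (σ ⊕ τ) ℂ) :=
    fun l => pderiv (Sum.inl l)
  let g : σ → MvPolynomial (σ ⊕ τ) ℂ := fun l => pderiv (Sum.inl l) G
  let x : σ → MvPolynomial (σ ⊕ τ) ℂ := fun l => X (Sum.inl l)
  let W : σ → MvPolynomial (σ ⊕ τ) ℂ := fun l => psi y (V l)
  have hGeul : ∑ l : σ, X (Sum.inl l) * pderiv (Sum.inl l) G = (e : ℂ) • G := by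
    have h2 := hGe.sum_weight_X_mul_pderiv
    rw [Fintype.sum_sum_type] at h2
    simp only [Sum.elim_inl, Sum.elim_inr, zero_smul, Finset.sum_const_zero, add_zero,
      one_smul] at h2
    rw [h2, ← Nat.cast_smul_eq_nsmul ℂ]
  have hg : ∑ k, g k * x k = (e : ℂ) • G := by
    rw [← hGeul]
    exact Finset.sum_congr rfl fun l _ => mul_comm _ _
  have hW : ∑ k, D k (W k) = psi y (∑ l, pderiv (Sum.inr l) (V l)) := by
    rw [map_sum]
    refine Finset.sum_congr rfl fun l _ => ?_
    change pderiv (Sum.inl l) (psi y (V l)) = _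
    rw [pderiv_psi]
  have hE : eul (∑ l, pderiv (Sum.inr l) (V l)) =
      ((d : ℂ) * N) • ∑ l, pderiv (Sum.inr l) (V l) := by
    have h1 : ∀ l : σ, eul (pderiv (Sum.inr l) (V l)) = ((d : ℂ) * N) • pderiv (Sum.inr l) (V l) := by
      intro l
      rw [eul_pderiv (V l) _ (eul_of_bihom (V l) _ _ (hV l)) l]
      congr 1
      push_cast
      ring
    have h2 : eul (∑ l, pderiv (Sum.inr l) (V l)) = ∑ l : σ, eul (pderiv (Sum.inr l) (V l)) := by
      simp only [eul, map_sum, Finset.mul_sum]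
      exact Finset.sum_comm
    rw [h2, Finset.smul_sum]
    exact Finset.sum_congr rfl fun l _ => h1 l
  have hx : ∑ k, D k (x k) = algebraMap ℂ (MvPolynomial (σ ⊕ τ) ℂ) (Fintype.card σ : ℂ) := by
    have h2 : ∀ l : σ, D l (x l) = 1 := fun l => pderiv_X_self _
    rw [Finset.sum_congr rfl fun l _ => h2 l, Finset.sum_const, Finset.card_univ,
      nsmul_eq_mul, mul_one, map_natCast]
  have hun : psi y (univ f) = G ^ K := by
    rw [psi_univ f y 0, Ft, hG]
    ring
  have hC : ∀ a : ℂ, psi y (C a : MvPolynomial (ι ⊕ σ) ℂ) = C a := fun a => aeval_C _ _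
  have h1 := congrArg (psi y) hEq
  rw [map_mul, map_pow, hun, map_sum] at h1
  simp only [map_add, map_mul, ← pderiv_psi, hun, hC] at h1
  have h2 : ∀ l : σ, pderiv (Sum.inl l) (G ^ K) = G ^ (K - 1) * ((K : ℂ) • pderiv (Sum.inl l) G) := by
    intro l
    rw [Derivation.leibniz_pow, nsmul_eq_mul, smul_eq_mul, Algebra.smul_def, map_natCast]
    ring
  have heq : β • G ^ (K * N + 1) = G * ∑ k, D k (W k) +
      ((K : ℂ) * α - ((K * N : ℕ) : ℂ)) • ∑ k, g k * W k := by
    rw [hW]
    refine mul_left_cancel₀ (pow_ne_zero (K - 1) hG0) ?_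
    have h3 : G ^ (K - 1) * (β • G ^ (K * N + 1)) = C β * (G ^ K) ^ (N + 1) := by
      rw [smul_eq_C_mul, ← pow_mul, mul_left_comm, ← pow_add]
      congr 2
      have : K * (N + 1) = K * N + K := by ring
      omega
    rw [h3, h1]
    have h4 : G ^ K = G ^ (K - 1) * G := by
      rw [← pow_succ]
      congr 1
      omega
    rw [mul_add, Finset.sum_add_distrib]
    refine congrArg₂ (· + ·) ?_ ?_
    · rw [map_sum, Finset.mul_sum, Finset.mul_sum]
      refine Finset.sum_congr rfl fun l _ => ?_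
      rw [h4, pderiv_psi]
      ring
    · rw [smul_eq_C_mul, Finset.mul_sum, Finset.mul_sum]
      refine Finset.sum_congr rfl fun l _ => ?_
      rw [h2, smul_eq_C_mul]
      have h5 : (C ((K : ℂ) * α - ((K * N : ℕ) : ℂ)) : MvPolynomial (σ ⊕ τ) ℂ) =
          C (α - N) * C (K : ℂ) := by
        rw [← C_mul]
        congr 1
        push_cast
        ring
      rw [h5]
      change C (α - N) * psi y (V l) * _ = G ^ (K - 1) * (_ * (pderiv (Sum.inl l) G * psi y (V l)))
      ring
  have hDW : ∑ k, x k * D k (∑ l, D l (W l)) = ((e : ℂ) * ((K * N : ℕ) : ℂ)) • ∑ l, D l (W l) := by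
    rw [hW]
    change ∑ l : σ, X (Sum.inl l) * pderiv (Sum.inl l) (psi y _) = _
    rw [eul_psi, hE, map_smul]
    congr 1
    rw [← hKe]
    push_cast
    ring
  have hα' : (K : ℂ) * α * (e : ℂ) = -(Fintype.card σ : ℂ) := by
    rw [← hα, ← hKe]
    push_cast
    ring
  have h5 := inIm_const (D := D) (g := g) x G e (Fintype.card σ) ((K : ℂ) * α) β (K * N) he0
    hα' hx hg hGeul W hDW heq
  obtain ⟨U, hU⟩ := exact_of_inIm _ h5
  have h8 : β * ∏ i ∈ Finset.range (K * N + 1), ((i : ℂ) - (K : ℂ) * α) = 0 := by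
    by_contra h9
    set c : ℂ := β * ∏ i ∈ Finset.range (K * N + 1), ((i : ℂ) - (K : ℂ) * α) with hc
    refine hex ⟨fun l => c⁻¹ • U l, ?_⟩
    have h10 : ∀ l, pderiv (Sum.inl l) (c⁻¹ • U l) + c⁻¹ • U l * pderiv (Sum.inl l) G =
        c⁻¹ • (pderiv (Sum.inl l) (U l) + U l * pderiv (Sum.inl l) G) := by
      intro l
      rw [Derivation.map_smul, smul_mul_assoc, smul_add]
    rw [Finset.sum_congr rfl fun l _ => h10 l, ← Finset.smul_sum]
    change c⁻¹ • ∑ l, (D l (U l) + U l * g l) = 1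
    rw [hU, Algebra.smul_def, ← map_mul, inv_mul_cancel₀ h9, map_one]
  refine (mul_eq_zero.1 h8).resolve_right (Finset.prod_ne_zero_iff.2 fun i _ h9 => ?_)
  have h10 : ((i * e + Fintype.card σ : ℕ) : ℂ) = 0 := by
    push_cast
    linear_combination (e : ℂ) * h9 + hα'
  have h11 : i * e + Fintype.card σ = 0 := by exact_mod_cast h10
  have h12 : 0 < Fintype.card σ := Fintype.card_pos
  omega

end Pool.Agent.L5helper26.CP
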