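import Pool.Agent.L5helper26.CP.Gen
import Pool.Agent.H135R2.VS.Der

set_option autoImplicit false
set_option linter.unusedSectionVars false

/-! # Isolated critical points: examples -/

namespace Pool.Agent.L5helper26.CP

open MvPolynomial

section basic

variable {κ : Type} [Fintype κ] [DecidableEq κ]

theorem sub_eval_mem (P : κ → ℂ) (a : MvPolynomial κ ℂ) :
    a - C (eval P a) ∈ Ideal.span (Set.range fun k => (X k - C (P k) : MvPolynomial κ ℂ)) := by
  induction a using MvPolynomial.induction_on with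
  | C a => rw [eval_C, sub_self]; exact Ideal.zero_mem _
  | add p q hp hq =>
    have h : p + q - C (eval P (p + q)) = (p - C (eval P p)) + (q - C (eval P q)) := by
      rw [map_add, map_add]
      ring
    rw [h]
    exact Ideal.add_mem _ hp hq
  | mul_X p i hp =>
    have h : p * X i - C (eval P (p * X i)) = (p - C (eval P p)) * X i +
        C (eval P p) * (X i - C (P i)) := by
      rw [map_mul, eval_X, map_mul]
      ring
    rw [h]
    exact Ideal.add_mem _ (Ideal.mul_mem_right _ _ hp)
      (Ideal.mul_mem_left _ _ (Ideal.subset_span ⟨i, rfl⟩))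

theorem ker_eval_le (P : κ → ℂ) (Q : Ideal (MvPolynomial κ ℂ))
    (h : ∀ k, (X k - C (P k) : MvPolynomial κ ℂ) ∈ Q) :
    RingHom.ker (eval P : MvPolynomial κ ℂ →+* ℂ) ≤ Q := by
  intro a ha
  rw [RingHom.mem_ker] at ha
  have h1 := sub_eval_mem P a
  rw [ha, map_zero, sub_zero] at h1
  refine (Ideal.span_le.2 ?_) h1
  rintro _ ⟨k, rfl⟩
  exact h k

/-- a nondegenerate critical point is isolated -/
theorem isolated_of_det (H : MvPolynomial κ ℂ) (P : κ → ℂ)
    (hcrit : ∀ k, eval P (pderiv k H) = 0)
    (hdet : (Matrix.of fun k m => eval P (pderiv m (pderiv k H))).det ≠ 0) :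
    IsIsolatedCritical H P := by
  refine ⟨⟨RingHom.ker_isPrime _, ?_⟩, ?_⟩
  · rw [Ideal.span_le]
    rintro _ ⟨k, rfl⟩
    exact hcrit k
  · rintro Q ⟨hQ, hJ⟩ hQP
    have h1 : ∀ k, ∃ a : κ → MvPolynomial κ ℂ, ∑ m, a m * (X m - C (P m)) = pderiv k H := by
      intro k
      have h2 := sub_eval_mem P (pderiv k H)
      rw [hcrit k, map_zero, sub_zero] at h2
      exact Ideal.mem_span_range_iff_exists_fun.1 h2
    choose a ha using h1
    have h2 : ∀ k m, eval P (a k m) = eval P (pderiv m (pderiv k H)) := by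
      intro k m
      rw [← ha k, map_sum, map_sum, Finset.sum_eq_single m]
      · rw [Derivation.leibniz, map_sub, pderiv_X_self, pderiv_C]
        simp
      · intro l _ hl
        rw [Derivation.leibniz, map_sub, pderiv_X_of_ne hl, pderiv_C]
        simp
      · intro h
        exact absurd (Finset.mem_univ m) h
    have h3 : (Matrix.of a).det ∉ Q := by
      intro h
      have h4 : eval P (Matrix.of a).det = 0 := hQP h
      rw [RingHom.map_det] at h4
      refine hdet ?_
      rw [← h4]
      congr 1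
      ext k m
      rw [RingHom.mapMatrix_apply, Matrix.map_apply, Matrix.of_apply, Matrix.of_apply, h2]
    refine ker_eval_le P Q fun m => ?_
    refine (hQ.mem_or_mem (x := (Matrix.of a).det) (y := X m - C (P m)) ?_).resolve_left h3
    have h5 : (Matrix.of a).det * (X m - C (P m)) =
        ∑ k, (Matrix.of a).adjugate m k * pderiv k H := by
      have h6 : (Matrix.of a).mulVec (fun l => X l - C (P l)) = fun k => pderiv k H :=
        funext fun k => ha k
      have h7 : (Matrix.of a).adjugate.mulVec (fun k => pderiv k H) =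
          (Matrix.of a).det • fun l => (X l - C (P l) : MvPolynomial κ ℂ) := by
        rw [← h6, Matrix.mulVec_mulVec, Matrix.adjugate_mul, Matrix.smul_mulVec, Matrix.one_mulVec]
      exact (congrFun h7 m).symm
    rw [h5]
    exact Ideal.sum_mem _ fun k _ => Ideal.mul_mem_left _ _ (hJ (Ideal.subset_span ⟨k, rfl⟩))

/-- a point which is the only critical point -/
theorem isolated_of_unique (H : MvPolynomial κ ℂ) (P : κ → ℂ)
    (hcrit : ∀ k, eval P (pderiv k H) = 0)
    (huniq : ∀ v : κ → ℂ, (∀ k, eval v (pderiv k H) = 0) → v = P) :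
    IsIsolatedCritical H P := by
  refine ⟨⟨RingHom.ker_isPrime _, ?_⟩, ?_⟩
  · rw [Ideal.span_le]
    rintro _ ⟨k, rfl⟩
    exact hcrit k
  · rintro Q ⟨hQ, hJ⟩ hQP
    refine ker_eval_le P Q fun m => ?_
    have h1 : (X m - C (P m) : MvPolynomial κ ℂ) ∈
        vanishingIdeal ℂ (zeroLocus ℂ (Ideal.span (Set.range fun k => pderiv k H))) := by
      rw [mem_vanishingIdeal_iff]
      intro v hv
      have h2 : v = P := huniq v fun k => by
        have h3 := hv (pderiv k H) (Ideal.subset_span ⟨k, rfl⟩)
        rwa [aeval_eq_eval] at h3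
      rw [h2]
      simp
    rw [vanishingIdeal_zeroLocus_eq_radical] at h1
    obtain ⟨N, hN⟩ := h1
    exact hQ.mem_of_pow_mem N (hJ hN)

end basic

section sard

variable {κ : Type} [Fintype κ]

theorem der_comp {L : Type} [Field L] [Algebra ℂ L] (θ : MvPolynomial κ ℂ →ₐ[ℂ] L)
    (D : Derivation ℂ L L) (a : MvPolynomial κ ℂ) :
    D (θ a) = ∑ k, θ (pderiv k a) * D (θ (X k)) := by
  classical
  induction a using MvPolynomial.induction_on with
  | C a =>
    have h : θ (C a) = algebraMap ℂ L a := θ.commutes a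
    rw [h, Derivation.map_algebraMap]
    simp
  | add p q hp hq =>
    simp only [map_add, hp, hq, add_mul, Finset.sum_add_distrib]
  | mul_X p i hp =>
    have h1 : ∀ k, θ (pderiv k (p * X i)) * D (θ (X k)) =
        θ (X i) * (θ (pderiv k p) * D (θ (X k))) + (if k = i then θ p * D (θ (X i)) else 0) := by
      intro k
      rw [Derivation.leibniz, map_add, smul_eq_mul, smul_eq_mul, map_mul, map_mul]
      by_cases h : k = i
      · subst h
        rw [pderiv_X_self, if_pos rfl, map_one]
        ring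
      · rw [pderiv_X_of_ne (Ne.symm h), if_neg h, map_zero]
        ring
    rw [Finset.sum_congr rfl fun k _ => h1 k, Finset.sum_add_distrib, ← Finset.mul_sum, ← hp,
      Finset.sum_ite_eq', if_pos (Finset.mem_univ i), map_mul, Derivation.leibniz, smul_eq_mul,
      smul_eq_mul]
    ring

/-- **Sard.** Modulo a prime ideal which contains the partial derivatives of `H`, the polynomial `H` is a
constant. -/
theorem sard (H : MvPolynomial κ ℂ) (Q : Ideal (MvPolynomial κ ℂ)) (hQ : Q.IsPrime)
    (hJ : ∀ k, pderiv k H ∈ Q) : ∃ t : ℂ, H - C t ∈ Q := by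
  let L := FractionRing (MvPolynomial κ ℂ ⧸ Q)
  let θ : MvPolynomial κ ℂ →ₐ[ℂ] L :=
    (IsScalarTower.toAlgHom ℂ (MvPolynomial κ ℂ ⧸ Q) L).comp (Ideal.Quotient.mkₐ ℂ Q)
  have hθ : ∀ a, θ a = 0 ↔ a ∈ Q := by
    intro a
    have h1 : θ a = algebraMap (MvPolynomial κ ℂ ⧸ Q) L (Ideal.Quotient.mk Q a) := rfl
    rw [h1, map_eq_zero_iff _ (IsFractionRing.injective (MvPolynomial κ ℂ ⧸ Q) L),
      Ideal.Quotient.eq_zero_iff_mem]
  have hD : ∀ D : Derivation ℂ L L, D (θ H) = 0 := by
    intro D
    rw [der_comp]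
    exact Finset.sum_eq_zero fun k _ => by rw [(hθ _).2 (hJ k), zero_mul]
  have halg : IsAlgebraic ℂ (θ H) := by
    by_contra h
    have h1 : AlgebraicIndependent ℂ (fun _ : Unit => θ H) := by
      rw [algebraicIndependent_unique_type_iff]
      exact h
    have : CharZero L := charZero_of_injective_algebraMap (algebraMap ℂ L).injective
    obtain ⟨D, hD1⟩ := Pool.Agent.H135R2.VS.exists_der h1 (fun _ => 1)
    have h2 := hD1 ()
    rw [hD] at h2
    exact zero_ne_one h2
  have hint : IsIntegral ℂ (θ H) := halg.isIntegral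
  have h1 : (minpoly ℂ (θ H)).degree = 1 :=
    IsAlgClosed.degree_eq_one_of_irreducible ℂ (minpoly.irreducible hint)
  obtain ⟨t, ht⟩ := minpoly.mem_range_of_degree_eq_one ℂ (θ H) h1
  refine ⟨t, (hθ _).1 ?_⟩
  rw [map_sub, ← ht, sub_eq_zero]
  exact (θ.commutes t).symm

end sard

end Pool.Agent.L5helper26.CP
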