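import Pool.Agent.L5helper26.CP.Smo

set_option autoImplicit false
set_option linter.unusedSectionVars false

/-! # The syzygies of the partial derivatives at an isolated critical point -/

namespace Pool.Agent.L5helper26.CP

open MvPolynomial

section mat

variable {A : Type*} [CommRing A] [Algebra ℂ A] {κ : Type*} [Fintype κ] [DecidableEq κ]

theorem syz_matrix (M : Matrix κ κ A) (hM : IsUnit M.det) (g B : κ → A)
    (hB : ∀ k, B k = ∑ m, M k m * g m) (hsyz : Syz B) : Syz g := by
  intro u hu
  have hinv : M * M⁻¹ = 1 := Matrix.mul_nonsing_inv M hM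
  have hinv' : M⁻¹ * M = 1 := Matrix.nonsing_inv_mul M hM
  have hBv : M.mulVec g = B := by
    funext k
    rw [hB k]
    rfl
  have hgv : M⁻¹.mulVec B = g := by
    rw [← hBv, Matrix.mulVec_mulVec, hinv', Matrix.one_mulVec]
  have h1 : ∑ m, (Matrix.vecMul u M⁻¹) m * B m = 0 := by
    have h2 : dotProduct (Matrix.vecMul u M⁻¹) B = 0 := by
      rw [← Matrix.dotProduct_mulVec, hgv]
      exact hu
    exact h2
  obtain ⟨S, hS, hv⟩ := hsyz _ h1
  refine ⟨M.transpose * Matrix.of S * M, fun k m => ?_, fun k => ?_⟩
  · have h4 : (M.transpose * Matrix.of S * M).transpose =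
        -(M.transpose * Matrix.of S * M) := by
      have h5 : (Matrix.of S).transpose = -Matrix.of S := by
        ext i j
        rw [Matrix.transpose_apply, Matrix.of_apply, Matrix.neg_apply, Matrix.of_apply]
        exact hS j i
      rw [Matrix.transpose_mul, Matrix.transpose_mul, Matrix.transpose_transpose, h5,
        Matrix.neg_mul, Matrix.mul_neg, Matrix.mul_assoc]
    have h6 := congrFun (congrFun h4 m) k
    rw [Matrix.transpose_apply, Matrix.neg_apply] at h6
    exact h6
  · have h2 : Matrix.vecMul u M⁻¹ = (Matrix.of S).mulVec B := funext hv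
    have h3 : u = Matrix.vecMul ((Matrix.of S).mulVec B) M := by
      rw [← h2, Matrix.vecMul_vecMul, hinv', Matrix.vecMul_one]
    have h4 : u = (M.transpose * Matrix.of S * M).mulVec g := by
      rw [← Matrix.mulVec_mulVec, hBv, ← Matrix.mulVec_mulVec, Matrix.mulVec_transpose]
      exact h3
    exact congrFun h4 k

end mat

section top

variable {κ : Type} [Fintype κ] [DecidableEq κ]

/-- the degree is less than `t` -/
def DB (t : ℕ) (p : MvPolynomial κ ℂ) : Prop := ∀ m : κ →₀ ℕ, t ≤ m.degree → coeff m p = 0

theorem DB.add {t : ℕ} {p q : MvPolynomial κ ℂ} (hp : DB t p) (hq : DB t q) : DB t (p + q) :=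
  fun m hm => by rw [coeff_add, hp m hm, hq m hm, add_zero]

theorem DB.neg {t : ℕ} {p : MvPolynomial κ ℂ} (hp : DB t p) : DB t (-p) :=
  fun m hm => by rw [coeff_neg, hp m hm, neg_zero]

theorem DB.sub {t : ℕ} {p q : MvPolynomial κ ℂ} (hp : DB t p) (hq : DB t q) : DB t (p - q) := by
  rw [sub_eq_add_neg]
  exact hp.add hq.neg

theorem DB.sum {t : ℕ} {ι : Type*} (s : Finset ι) (p : ι → MvPolynomial κ ℂ)
    (hp : ∀ i ∈ s, DB t (p i)) : DB t (∑ i ∈ s, p i) :=
  fun m hm => by
    rw [coeff_sum]
    exact Finset.sum_eq_zero fun i hi => hp i hi m hm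

theorem DB.mul {a b : ℕ} {p q : MvPolynomial κ ℂ} (hp : DB a p) (hq : DB (b + 1) q) :
    DB (a + b) (p * q) := by
  intro m hm
  rw [coeff_mul]
  refine Finset.sum_eq_zero fun x hx => ?_
  rw [Finset.HasAntidiagonal.mem_antidiagonal] at hx
  by_cases h1 : a ≤ x.1.degree
  · rw [hp _ h1, zero_mul]
  · have h2 : m.degree = x.1.degree + x.2.degree := by rw [← hx, map_add]
    rw [hq x.2 (by omega), mul_zero]

theorem DB.of_totalDegree {t : ℕ} {p : MvPolynomial κ ℂ} (h : p.totalDegree < t) : DB t p := by
  intro m hm
  by_contra h1
  have h2 := le_totalDegree (mem_support_iff.2 h1)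
  have h3 : m.degree = m.sum fun _ e => e := rfl
  omega

theorem DB.of_hom {t : ℕ} {p : MvPolynomial κ ℂ} (h : p.IsHomogeneous t) : DB (t + 1) p := by
  intro m hm
  exact h.coeff_eq_zero (by omega)

theorem DB.sub_hc {t : ℕ} {p : MvPolynomial κ ℂ} (h : DB (t + 1) p) :
    DB t (p - homogeneousComponent t p) := by
  intro m hm
  rw [coeff_sub, coeff_homogeneousComponent]
  split_ifs with h1
  · rw [sub_self]
  · rw [h m (by omega), sub_zero]

theorem DB.eq_zero {t : ℕ} {p : MvPolynomial κ ℂ} (h : DB t p) (hp : p.IsHomogeneous t) :
    p = 0 := by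
  ext m
  rw [coeff_zero]
  by_cases h1 : m.degree = t
  · exact h m (by omega)
  · exact hp.coeff_eq_zero h1

/-- polynomials whose top degree forms are the powers of the variables -/
theorem syz_top (M : ℕ) (hM : 0 < M) (r : κ → MvPolynomial κ ℂ) (hr : ∀ k, DB M (r k)) :
    Syz fun k => X k ^ M + r k := by
  have hX : ∀ k : κ, (X k ^ M : MvPolynomial κ ℂ).IsHomogeneous M := fun k => by
    have h := (isHomogeneous_X ℂ k).pow M
    rwa [one_mul] at h
  have hsf : Syz fun k : κ => (X k ^ M : MvPolynomial κ ℂ) :=
    syz_of_forms _ M hM hX fun v hv => by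
      funext k
      have h := hv k
      rw [map_pow, eval_X] at h
      exact (pow_eq_zero_iff hM.ne').1 h
  have main : ∀ t : ℕ, ∀ u : κ → MvPolynomial κ ℂ, (∀ k, DB t (u k)) →
      ∑ k, u k * (X k ^ M + r k) = 0 →
      ∃ S : κ → κ → MvPolynomial κ ℂ, (∀ k m, S k m = -S m k) ∧
        ∀ k, u k = ∑ m, S k m * (X m ^ M + r m) := by
    intro t
    induction t with
    | zero =>
      intro u hu _
      refine ⟨fun _ _ => 0, fun _ _ => by rw [neg_zero], fun k => ?_⟩
      simp only [zero_mul, Finset.sum_const_zero]
      ext m
      rw [coeff_zero]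
      exact hu k m (Nat.zero_le _)
    | succ t ih =>
      intro u hu hsum
      have h1 : ∑ k, homogeneousComponent t (u k) * X k ^ M = 0 := by
        have h2 : (∑ k, homogeneousComponent t (u k) * X k ^ M).IsHomogeneous (t + M) :=
          IsHomogeneous.sum _ _ _ fun k _ => (homogeneousComponent_isHomogeneous t (u k)).mul (hX k)
        refine DB.eq_zero (t := t + M) ?_ h2
        have h3 : ∑ k, homogeneousComponent t (u k) * X k ^ M =
            -(∑ k, (u k - homogeneousComponent t (u k)) * X k ^ M + ∑ k, r k * u k) := by
          have h4 : ∑ k, homogeneousComponent t (u k) * X k ^ M +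
              (∑ k, (u k - homogeneousComponent t (u k)) * X k ^ M + ∑ k, r k * u k) =
              ∑ k, u k * (X k ^ M + r k) := by
            rw [← Finset.sum_add_distrib, ← Finset.sum_add_distrib]
            refine Finset.sum_congr rfl fun k _ => ?_
            ring
          rw [hsum] at h4
          exact eq_neg_of_add_eq_zero_left h4
        rw [h3]
        refine DB.neg (DB.add (DB.sum _ _ fun k _ => ?_) (DB.sum _ _ fun k _ => ?_))
        · exact (hu k).sub_hc.mul (DB.of_hom (hX k))
        · rw [add_comm]
          exact (hr k).mul (hu k)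
      obtain ⟨S, hS, hv⟩ := hsf _ h1
      by_cases htM : t < M
      · have h2 : ∀ k, homogeneousComponent t (u k) = 0 := by
          intro k
          have h3 := congrArg (homogeneousComponent t) (hv k)
          rw [homogeneousComponent_of_mem (homogeneousComponent_isHomogeneous t (u k)),
            if_pos rfl, map_sum] at h3
          rw [h3]
          refine Finset.sum_eq_zero fun m _ => ?_
          rw [mul_comm]
          exact Pool.Agent.TH144.MB.comp_mul_lt (hX m) _ htM
        refine ih u (fun k => ?_) hsum
        have h3 := (hu k).sub_hc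
        rwa [h2 k, sub_zero] at h3
      · obtain ⟨t', rfl⟩ : ∃ t', t = M + t' := ⟨t - M, by omega⟩
        have h2 : ∀ k, homogeneousComponent (M + t') (u k) =
            ∑ m, homogeneousComponent t' (S k m) * X m ^ M := by
          intro k
          have h3 := congrArg (homogeneousComponent (M + t')) (hv k)
          rw [homogeneousComponent_of_mem (homogeneousComponent_isHomogeneous (M + t') (u k)),
            if_pos rfl, map_sum] at h3
          rw [h3]
          refine Finset.sum_congr rfl fun m _ => ?_
          rw [mul_comm, Pool.Agent.TH144.MB.comp_mul (hX m), mul_comm]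
        have hS' : ∀ k m, homogeneousComponent t' (S k m) = -homogeneousComponent t' (S m k) := by
          intro k m
          rw [hS k m, map_neg]
        obtain ⟨S'', hS'', hu''⟩ := ih
          (fun k => u k - ∑ m, homogeneousComponent t' (S k m) * (X m ^ M + r m)) (fun k => by
            have h3 : u k - ∑ m, homogeneousComponent t' (S k m) * (X m ^ M + r m) =
                (u k - homogeneousComponent (M + t') (u k)) -
                ∑ m, r m * homogeneousComponent t' (S k m) := by
              rw [h2 k, sub_sub, ← Finset.sum_add_distrib]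
              congr 1
              refine Finset.sum_congr rfl fun m _ => ?_
              ring
            rw [h3]
            refine (hu k).sub_hc.sub (DB.sum _ _ fun m _ => ?_)
            exact (hr m).mul (DB.of_hom (homogeneousComponent_isHomogeneous t' (S k m)))) (by
            simp only [sub_mul, Finset.sum_sub_distrib, hsum, zero_sub, neg_eq_zero]
            have h4 := sum_anti (A := MvPolynomial κ ℂ)
              (S := fun k m => homogeneousComponent t' (S k m))
              (B := fun k m => (X m ^ M + r m) * (X k ^ M + r k)) hS'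
              (fun k m => mul_comm _ _)
            rw [← h4]
            refine Finset.sum_congr rfl fun k _ => ?_
            rw [Finset.sum_mul]
            refine Finset.sum_congr rfl fun m _ => ?_
            ring)
        refine ⟨fun k m => homogeneousComponent t' (S k m) + S'' k m, fun k m => ?_, fun k => ?_⟩
        · change homogeneousComponent t' (S k m) + S'' k m =
            -(homogeneousComponent t' (S m k) + S'' m k)
          rw [hS' k m, hS'' k m]
          ring
        · have h5 := hu'' k
          simp only [add_mul, Finset.sum_add_distrib]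
          rw [← h5]
          ring
  intro u hu
  refine main ((Finset.univ.sup fun k => (u k).totalDegree) + 1) u (fun k => ?_) hu
  refine DB.of_totalDegree ?_
  have h1 := Finset.le_sup (f := fun k => (u k).totalDegree) (Finset.mem_univ k)
  exact Nat.lt_succ_of_le h1

end top

section loc

variable {κ : Type*} [Fintype κ] {A : Type*} [CommRing A] [Algebra ℂ A]
  {R : Type*} [CommRing R] [Algebra ℂ R] [Algebra A R] [IsScalarTower ℂ A R]

theorem syz_loc (M : Submonoid A) [IsLocalization M R] (hM : M ≤ nonZeroDivisors A)
    (B : κ → A) (hB : Syz B) : Syz fun k => algebraMap A R (B k) := by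
  intro u hu
  obtain ⟨s, hs⟩ := IsLocalization.exist_integer_multiples_of_finite M u
  choose a ha using hs
  have hunit : IsUnit (algebraMap A R s) := IsLocalization.map_units R s
  have h1 : ∑ k, a k * B k = 0 := by
    refine IsLocalization.injective R hM ?_
    rw [map_sum, map_zero]
    have h2 : ∀ k, algebraMap A R (a k * B k) = algebraMap A R s * (u k * algebraMap A R (B k)) := by
      intro k
      rw [map_mul, ha k, Algebra.smul_def, mul_assoc]
    rw [Finset.sum_congr rfl fun k _ => h2 k, ← Finset.mul_sum, hu, mul_zero]
  obtain ⟨S, hS, hv⟩ := hB a h1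
  obtain ⟨w, hw⟩ := hunit
  refine ⟨fun k m => ((w⁻¹ : Rˣ) : R) * algebraMap A R (S k m), fun k m => ?_, fun k => ?_⟩
  · change _ * algebraMap A R (S k m) = -(_ * algebraMap A R (S m k))
    rw [hS k m, map_neg, mul_neg]
  · have h2 : (w : R) * u k = algebraMap A R (a k) := by
      rw [ha k, Algebra.smul_def, hw]
    have h3 : u k = ((w⁻¹ : Rˣ) : R) * algebraMap A R (a k) := by
      rw [← h2, Units.inv_mul_cancel_left]
    rw [h3, hv k, map_sum, Finset.mul_sum]
    refine Finset.sum_congr rfl fun m _ => ?_
    rw [map_mul, mul_assoc]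

/-- the extension of a derivation to a localization -/
theorem exists_derivation (M : Submonoid A) [IsLocalization M R] (d : Derivation ℂ A A) :
    ∃ D : Derivation ℂ R R, ∀ a : A, D (algebraMap A R a) = algebraMap A R (d a) := by
  have : Algebra.FormallyEtale A R := Algebra.FormallyEtale.of_isLocalization M
  have hb := KaehlerDifferential.isBaseChange_of_formallyEtale ℂ A R
  let d' : Derivation ℂ A R := (Algebra.linearMap A R).compDer d
  let g := hb.lift d'.liftKaehlerDifferential
  refine ⟨g.compDer (KaehlerDifferential.D ℂ R), fun a => ?_⟩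
  have h5 := hb.lift_eq d'.liftKaehlerDifferential (KaehlerDifferential.D ℂ A a)
  rw [KaehlerDifferential.map_D, Derivation.liftKaehlerDifferential_comp_D] at h5
  exact h5

/-- a derivation of a localization which vanishes on the ring is zero -/
theorem derivation_eq_zero (M : Submonoid A) [IsLocalization M R] (D : Derivation ℂ R R)
    (h : ∀ a : A, D (algebraMap A R a) = 0) (r : R) : D r = 0 := by
  obtain ⟨⟨a, s⟩, hs⟩ := IsLocalization.surj M r
  have h1 := congrArg D hs
  rw [Derivation.leibniz, h, h, smul_zero, zero_add, smul_eq_mul] at h1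
  exact (IsLocalization.map_units R s).mul_right_eq_zero.1 h1

end loc

end Pool.Agent.L5helper26.CP
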