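import Mathlib

set_option autoImplicit false
set_option linter.unusedSectionVars false

/-! # Exactness in `A[τ]`: the operator `W ↦ ∑ (D_k - τ g_k) W_k`

Elements of `A[τ]` are sequences of coefficients. `InIm D g p` says that the sequence `p` is in the
image of the operator. If the syzygies of the `g_k` are the trivial ones, a constant in the image is in the
ideal generated by the `g_k`. -/

namespace Pool.Agent.L5helper26.CP

variable {A : Type*} [CommRing A] [Algebra ℂ A] {κ : Type*} [Fintype κ]

/-- the coefficient of `τ ^ i` of `∑_k (D_k - τ g_k) W_k` -/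
def tf (D : κ → Derivation ℂ A A) (g : κ → A) (W : ℕ → κ → A) : ℕ → A
  | 0 => ∑ k, D k (W 0 k)
  | i + 1 => ∑ k, D k (W (i + 1) k) - ∑ k, g k * W i k

/-- the sequence is in the image of the operator -/
def InIm (D : κ → Derivation ℂ A A) (g : κ → A) (p : ℕ → A) : Prop :=
  ∃ (N : ℕ) (W : ℕ → κ → A), (∀ i, N < i → W i = 0) ∧ ∀ i, p i = tf D g W i

/-- the sequence with one entry -/
def sg (i : ℕ) (a : A) : ℕ → A := fun j => if j = i then a else 0

theorem sg_add (i : ℕ) (a b : A) : sg i (a + b) = sg i a + sg i b := by
  funext j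
  simp only [sg, Pi.add_apply]
  split_ifs <;> simp

theorem sg_sub (i : ℕ) (a b : A) : sg i (a - b) = sg i a - sg i b := by
  funext j
  simp only [sg, Pi.sub_apply]
  split_ifs <;> simp

theorem sg_smul (i : ℕ) (c : ℂ) (a : A) : sg i (c • a) = c • sg i a := by
  funext j
  simp only [sg, Pi.smul_apply]
  split_ifs <;> simp

theorem sg_zero (i : ℕ) : sg i (0 : A) = 0 := by
  funext j
  simp [sg]

variable {D : κ → Derivation ℂ A A} {g : κ → A}

theorem tf_add (W W' : ℕ → κ → A) (i : ℕ) : tf D g (W + W') i = tf D g W i + tf D g W' i := by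
  cases i with
  | zero => simp [tf, Finset.sum_add_distrib]
  | succ i =>
    simp only [tf, Pi.add_apply, map_add, mul_add, Finset.sum_add_distrib]
    ring

theorem tf_smul (c : ℂ) (W : ℕ → κ → A) (i : ℕ) : tf D g (c • W) i = c • tf D g W i := by
  cases i with
  | zero => simp [tf, Finset.smul_sum]
  | succ i =>
    simp only [tf, Pi.smul_apply, Derivation.map_smul, mul_smul_comm, smul_sub, Finset.smul_sum]

theorem InIm.add {p q : ℕ → A} (hp : InIm D g p) (hq : InIm D g q) : InIm D g (p + q) := by
  obtain ⟨N, W, hN, hW⟩ := hp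
  obtain ⟨N', W', hN', hW'⟩ := hq
  refine ⟨max N N', W + W', fun i hi => ?_, fun i => ?_⟩
  · rw [Pi.add_apply, hN i (lt_of_le_of_lt (le_max_left _ _) hi),
      hN' i (lt_of_le_of_lt (le_max_right _ _) hi), add_zero]
  · rw [tf_add, Pi.add_apply, hW, hW']

theorem InIm.smul (c : ℂ) {p : ℕ → A} (hp : InIm D g p) : InIm D g (c • p) := by
  obtain ⟨N, W, hN, hW⟩ := hp
  refine ⟨N, c • W, fun i hi => ?_, fun i => ?_⟩
  · rw [Pi.smul_apply, hN i hi, smul_zero]
  · rw [tf_smul, Pi.smul_apply, hW]

theorem InIm.neg {p : ℕ → A} (hp : InIm D g p) : InIm D g (-p) := by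
  have h := hp.smul (-1)
  rwa [neg_one_smul] at h

theorem InIm.sub {p q : ℕ → A} (hp : InIm D g p) (hq : InIm D g q) : InIm D g (p - q) := by
  rw [sub_eq_add_neg]
  exact hp.add hq.neg

/-- the basic relations -/
theorem inIm_basic (i : ℕ) (w : κ → A) :
    InIm D g (sg i (∑ k, D k (w k)) - sg (i + 1) (∑ k, g k * w k)) := by
  classical
  refine ⟨i, fun j => if j = i then w else 0, fun j hj => ?_, fun j => ?_⟩
  · exact if_neg (by omega)
  · rcases j with _ | j
    · by_cases h : (0 : ℕ) = i
      · subst h
        simp [tf, sg]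
      · have h1 : ¬ (0 = i + 1) := by omega
        simp [tf, sg, h]
    · by_cases h : j + 1 = i
      · have h1 : ¬ (j + 1 = i + 1) := by omega
        have h2 : ¬ (j = i) := by omega
        simp [tf, sg, h, h2]
      · by_cases h2 : j = i
        · simp [tf, sg, h2]
        · simp [tf, sg, h, h2]

/-- the trivial syzygies -/
def Syz (g : κ → A) : Prop :=
  ∀ u : κ → A, ∑ k, u k * g k = 0 →
    ∃ S : κ → κ → A, (∀ k m, S k m = -S m k) ∧ ∀ k, u k = ∑ m, S k m * g m

theorem sum_anti {S B : κ → κ → A} (hS : ∀ k m, S k m = -S m k) (hB : ∀ k m, B k m = B m k) :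
    ∑ k, ∑ m, S k m * B k m = 0 := by
  have h : ∑ k, ∑ m, S k m * B k m = -∑ k, ∑ m, S k m * B k m := by
    conv_lhs => rw [Finset.sum_comm]
    rw [← Finset.sum_neg_distrib]
    refine Finset.sum_congr rfl fun k _ => ?_
    rw [← Finset.sum_neg_distrib]
    refine Finset.sum_congr rfl fun m _ => ?_
    rw [hS m k, hB m k]
    ring
  have h2 : (2 : ℂ) • ∑ k, ∑ m, S k m * B k m = 0 := by
    rw [two_smul]
    nth_rewrite 1 [h]
    ring
  rcases smul_eq_zero.1 h2 with h3 | h3
  · norm_num at h3
  · exact h3

theorem sum_anti' {S : κ → κ → A} (hS : ∀ k m, S k m = -S m k)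
    (hcomm : ∀ k m a, D k (D m a) = D m (D k a)) : ∑ k, ∑ m, D k (D m (S k m)) = 0 := by
  have h : ∑ k, ∑ m, D k (D m (S k m)) = -∑ k, ∑ m, D k (D m (S k m)) := by
    conv_lhs => rw [Finset.sum_comm]
    rw [← Finset.sum_neg_distrib]
    refine Finset.sum_congr rfl fun k _ => ?_
    rw [← Finset.sum_neg_distrib]
    refine Finset.sum_congr rfl fun m _ => ?_
    rw [hS m k, hcomm m k, map_neg, map_neg]
  have h2 : (2 : ℂ) • ∑ k, ∑ m, D k (D m (S k m)) = 0 := by
    rw [two_smul]
    nth_rewrite 1 [h]
    ring
  rcases smul_eq_zero.1 h2 with h3 | h3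
  · norm_num at h3
  · exact h3

/-- **Constants in the image are in the ideal.** -/
theorem const_mem (hcomm : ∀ k m a, D k (D m a) = D m (D k a)) (hsym : ∀ k m, D k (g m) = D m (g k))
    (hsyz : Syz g) (c : A) (h : InIm D g (sg 0 c)) : c ∈ Ideal.span (Set.range g) := by
  classical
  obtain ⟨N, W, hN, hW⟩ := h
  induction N generalizing W with
  | zero =>
    have h1 := hW 1
    rw [tf, hN 1 one_pos] at h1
    have h2 : ∑ k, W 0 k * g k = 0 := by
      have h3 : sg 0 c 1 = (0 : A) := rfl
      rw [h3] at h1
      simp only [Pi.zero_apply, map_zero, Finset.sum_const_zero, zero_sub] at h1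
      rw [← neg_eq_zero, h1]
      congr 1
      exact Finset.sum_congr rfl fun k _ => mul_comm _ _
    obtain ⟨S, hS, hu⟩ := hsyz _ h2
    have h3 : c = ∑ k, D k (W 0 k) := hW 0
    have h4 : ∑ k, D k (W 0 k) = ∑ k, ∑ m, g m * D k (S k m) := by
      have h5 : ∀ k, D k (W 0 k) = ∑ m, g m * D k (S k m) + ∑ m, S k m * D k (g m) := by
        intro k
        rw [hu k, map_sum, ← Finset.sum_add_distrib]
        refine Finset.sum_congr rfl fun m _ => ?_
        rw [Derivation.leibniz, smul_eq_mul, smul_eq_mul]
        ring
      rw [Finset.sum_congr rfl fun k _ => h5 k, Finset.sum_add_distrib, sum_anti hS hsym, add_zero]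
    rw [h3, h4]
    exact Ideal.sum_mem _ fun k _ => Ideal.sum_mem _ fun m _ =>
      Ideal.mul_mem_right _ _ (Ideal.subset_span ⟨m, rfl⟩)
  | succ N ih =>
    have h1 := hW (N + 2)
    rw [tf, hN (N + 1 + 1) (by omega)] at h1
    have h2 : ∑ k, W (N + 1) k * g k = 0 := by
      have h3 : sg 0 c (N + 2) = (0 : A) := by simp [sg]
      rw [h3] at h1
      simp only [Pi.zero_apply, map_zero, Finset.sum_const_zero, zero_sub] at h1
      rw [← neg_eq_zero, h1]
      congr 1
      exact Finset.sum_congr rfl fun k _ => mul_comm _ _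
    obtain ⟨S, hS, hu⟩ := hsyz _ h2
    let W' : ℕ → κ → A := fun i => if i = N + 1 then 0 else
      if i = N then fun k => W N k + ∑ m, D m (S k m) else W i
    refine ih W' (fun i hi => ?_) fun i => ?_
    · by_cases h3 : i = N + 1
      · simp [W', h3]
      · have h4 : i ≠ N := by omega
        simp only [W', if_neg h3, if_neg h4]
        exact hN i (by omega)
    · have hsum : ∑ k, D k (W N k + ∑ m, D m (S k m)) = ∑ k, D k (W N k) := by
        simp only [map_add, map_sum, Finset.sum_add_distrib]
        rw [sum_anti' hS hcomm, add_zero]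
      have hD : ∑ k, D k (W (N + 1) k) = ∑ k, ∑ m, g m * D k (S k m) := by
        have h5 : ∀ k, D k (W (N + 1) k) = ∑ m, g m * D k (S k m) + ∑ m, S k m * D k (g m) := by
          intro k
          rw [hu k, map_sum, ← Finset.sum_add_distrib]
          refine Finset.sum_congr rfl fun m _ => ?_
          rw [Derivation.leibniz, smul_eq_mul, smul_eq_mul]
          ring
        rw [Finset.sum_congr rfl fun k _ => h5 k, Finset.sum_add_distrib, sum_anti hS hsym,
          add_zero]
      rcases i with _ | i
      · rcases Nat.eq_zero_or_pos N with h0 | h0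
        · subst h0
          have e1 : tf D g W' 0 = ∑ k, D k (W 0 k + ∑ m, D m (S k m)) := by
            simp [tf, W']
          rw [e1, hsum]
          exact hW 0
        · have h3 : (0 : ℕ) ≠ N := by omega
          have e1 : tf D g W' 0 = ∑ k, D k (W 0 k) := by
            simp [tf, W', h3]
          rw [e1]
          exact hW 0
      · rw [hW (i + 1)]
        by_cases h3 : i = N + 1
        · subst h3
          have h4 : ¬ (N + 1 + 1 = N) := by omega
          have h5 : W (N + 1 + 1) = 0 := hN _ (by omega)
          have e2 : ∑ k, g k * W (N + 1) k = 0 := by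
            rw [← h2]
            exact Finset.sum_congr rfl fun k _ => mul_comm _ _
          have h10 : ¬ (N + 1 + 1 = N + 1) := by omega
          simp only [tf, W', if_neg h10, if_neg h4, if_true, h5, Pi.zero_apply, map_zero, mul_zero,
            Finset.sum_const_zero, sub_zero, e2]
        · by_cases h4 : i = N
          · subst h4
            have e1 : tf D g W' (i + 1) = -∑ k, g k * (W i k + ∑ m, D m (S k m)) := by
              simp [tf, W']
            rw [e1, tf, hD]
            have e3 : ∑ k, g k * ∑ m, D m (S k m) = -∑ k, ∑ m, g m * D k (S k m) := by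
              simp only [Finset.mul_sum]
              rw [Finset.sum_comm, ← Finset.sum_neg_distrib]
              refine Finset.sum_congr rfl fun k _ => ?_
              rw [← Finset.sum_neg_distrib]
              refine Finset.sum_congr rfl fun m _ => ?_
              rw [hS m k, map_neg]
              ring
            simp only [mul_add, Finset.sum_add_distrib]
            rw [e3]
            ring
          · by_cases h5 : i + 1 = N
            · have h6 : ¬ (i = N + 1) := h3
              have h8 : W N = W (i + 1) := by rw [h5]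
              have e1 : tf D g W' (i + 1) = ∑ k, D k (W N k + ∑ m, D m (S k m)) -
                  ∑ k, g k * W i k := by
                have h9 : ¬ (i + 1 = N + 1) := by omega
                simp only [tf, W', if_neg h9, if_pos h5, if_neg h3, if_neg h4]
              rw [e1, hsum, h8, tf]
            · have h9 : ¬ (i + 1 = N + 1) := by omega
              simp only [tf, W', if_neg h9, if_neg h5, if_neg h3, if_neg h4]

end Pool.Agent.L5helper26.CP
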