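import Pool.Agent.L5helper26.CP.Ps

set_option autoImplicit false
set_option linter.unusedSectionVars false

/-! # From the functional equation to a constant in the image -/

namespace Pool.Agent.L5helper26.CP

variable {A : Type*} [CommRing A] [Algebra ℂ A] {κ : Type*} [Fintype κ]
  {D : κ → Derivation ℂ A A} {g : κ → A}

/-- the relations given by the Euler operator -/
theorem inIm_euler (x : κ → A) (G : A) (e nn : ℂ) (he : e ≠ 0)
    (hx : ∑ k, D k (x k) = algebraMap ℂ A nn) (hg : ∑ k, g k * x k = e • G) (i : ℕ) (c : ℂ)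
    (u : A) (hu : ∑ k, x k * D k u = c • u) :
    InIm D g (sg i (((nn + c) / e) • u) - sg (i + 1) (G * u)) := by
  have h := (inIm_basic (D := D) (g := g) i fun k => x k * u).smul e⁻¹
  have h1 : ∑ k, D k (x k * u) = (nn + c) • u := by
    have h2 : ∀ k, D k (x k * u) = x k * D k u + D k (x k) * u := by
      intro k
      rw [Derivation.leibniz, smul_eq_mul, smul_eq_mul]
      ring
    rw [Finset.sum_congr rfl fun k _ => h2 k, Finset.sum_add_distrib, hu, ← Finset.sum_mul, hx,
      add_smul, add_comm, Algebra.smul_def nn u]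
  have h3 : ∑ k, g k * (x k * u) = e • (G * u) := by
    have h4 : ∀ k, g k * (x k * u) = g k * x k * u := fun k => (mul_assoc _ _ _).symm
    rw [Finset.sum_congr rfl fun k _ => h4 k, ← Finset.sum_mul, hg, smul_mul_assoc]
  rw [h1, h3, smul_sub, ← sg_smul, ← sg_smul, smul_smul, smul_smul, inv_mul_cancel₀ he,
    one_smul] at h
  rw [div_eq_inv_mul]
  exact h

/-- **A constant in the image.** -/
theorem inIm_const (x : κ → A) (G : A) (e nn α β : ℂ) (M : ℕ) (he : e ≠ 0)
    (hα : α * e = -nn) (hx : ∑ k, D k (x k) = algebraMap ℂ A nn)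
    (hg : ∑ k, g k * x k = e • G) (hG : ∑ k, x k * D k G = e • G) (V : κ → A)
    (hD : ∑ k, x k * D k (∑ l, D l (V l)) = (e * M) • ∑ l, D l (V l))
    (heq : β • G ^ (M + 1) = G * ∑ l, D l (V l) + (α - M) • ∑ k, g k * V k) :
    InIm D g (sg 0 (algebraMap ℂ A (β * ∏ i ∈ Finset.range (M + 1), ((i : ℂ) - α)))) := by
  have hpow : ∀ i : ℕ, ∑ k, x k * D k (G ^ i) = (e * i) • G ^ i := by
    intro i
    induction i with
    | zero => simp
    | succ i ih =>
      have h1 : ∀ k, x k * D k (G ^ (i + 1)) = G * (x k * D k (G ^ i)) +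
          G ^ i * (x k * D k G) := by
        intro k
        rw [pow_succ, Derivation.leibniz, smul_eq_mul, smul_eq_mul]
        ring
      rw [Finset.sum_congr rfl fun k _ => h1 k, Finset.sum_add_distrib, ← Finset.mul_sum,
        ← Finset.mul_sum, ih, hG, mul_smul_comm, mul_smul_comm, pow_succ, mul_comm (G ^ i),
        ← add_smul]
      congr 1
      push_cast
      ring
  have hdiv : ∀ i : ℕ, (nn + e * i) / e = i - α := by
    intro i
    field_simp
    linear_combination hα
  have hP : ∀ i : ℕ, InIm D g (sg 0 (algebraMap ℂ A (∏ j ∈ Finset.range i, ((j : ℂ) - α))) -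
      sg i (G ^ i)) := by
    intro i
    induction i with
    | zero =>
      rw [Finset.prod_range_zero, map_one, pow_zero, sub_self]
      refine ⟨0, 0, fun _ _ => rfl, fun i => ?_⟩
      cases i <;> simp [tf]
    | succ i ih =>
      have h1 := inIm_euler (D := D) (g := g) x G e nn he hx hg i (e * i) (G ^ i) (hpow i)
      rw [hdiv] at h1
      have h2 := (ih.smul ((i : ℂ) - α)).add h1
      rw [smul_sub, ← sg_smul, ← sg_smul, sub_add_sub_cancel] at h2
      rw [Finset.prod_range_succ, mul_comm, map_mul, ← Algebra.smul_def, pow_succ, mul_comm (G ^ i)]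
      exact h2
  have h1 := (hP (M + 1)).smul β
  rw [smul_sub, ← sg_smul, ← sg_smul, Algebra.smul_def β (algebraMap ℂ A _), ← map_mul] at h1
  have h2 := inIm_euler (D := D) (g := g) x G e nn he hx hg M (e * M) _ hD
  rw [hdiv] at h2
  have h3 := h2.add ((inIm_basic (D := D) (g := g) M V).smul (α - M))
  rw [smul_sub, ← sg_smul, ← sg_smul] at h3
  have h4 : sg M (((M : ℂ) - α) • ∑ l, D l (V l)) - sg (M + 1) (G * ∑ l, D l (V l)) +
      (sg M ((α - (M : ℂ)) • ∑ l, D l (V l)) - sg (M + 1) ((α - (M : ℂ)) • ∑ k, g k * V k)) =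
      -sg (M + 1) (β • G ^ (M + 1)) := by
    have h5 : sg M (((M : ℂ) - α) • ∑ l, D l (V l)) + sg M ((α - (M : ℂ)) • ∑ l, D l (V l)) =
        (0 : ℕ → A) := by
      rw [← sg_add, ← add_smul]
      have h6 : (M : ℂ) - α + (α - M) = 0 := by ring
      rw [h6, zero_smul, sg_zero]
    rw [heq, sg_add]
    calc _ = (sg M (((M : ℂ) - α) • ∑ l, D l (V l)) + sg M ((α - (M : ℂ)) • ∑ l, D l (V l))) -
        (sg (M + 1) (G * ∑ l, D l (V l)) + sg (M + 1) ((α - (M : ℂ)) • ∑ k, g k * V k)) := by abel
      _ = _ := by rw [h5, zero_sub]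
  rw [h4] at h3
  have h7 := h1.sub h3
  rw [sub_neg_eq_add, sub_add_cancel] at h7
  exact h7

end Pool.Agent.L5helper26.CP
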