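import Pool.Agent.L5helper26.CP.Inst

set_option autoImplicit false
set_option linter.unusedSectionVars false

/-! # Isolated singular points of the members, outside of the base locus -/

namespace Pool.Agent.L5helper26.CP

open MvPolynomial

variable {σ : Type} [Fintype σ] [DecidableEq σ]

theorem aeval_line (p : σ → ℂ) (g : MvPolynomial σ ℂ) (n : ℕ) (hg : g.IsHomogeneous n) :
    (aeval fun k => Polynomial.C (p k) * Polynomial.X : MvPolynomial σ ℂ →ₐ[ℂ] Polynomial ℂ) g =
      Polynomial.C (eval p g) * Polynomial.X ^ n := by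
  classical
  conv_lhs => rw [g.as_sum]
  conv_rhs => rw [g.as_sum]
  rw [map_sum, map_sum, map_sum, Finset.sum_mul]
  refine Finset.sum_congr rfl fun m hm => ?_
  rw [aeval_monomial, eval_monomial, Finsupp.prod, Finsupp.prod, map_mul, map_prod]
  have h1 : ∏ a ∈ m.support, (Polynomial.C (p a) * Polynomial.X : Polynomial ℂ) ^ m a =
      (∏ a ∈ m.support, Polynomial.C (p a ^ m a)) * Polynomial.X ^ n := by
    have h2 : m.degree = n := by
      by_contra h
      exact (mem_support_iff.1 hm) (hg.coeff_eq_zero h)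
    rw [← h2, Finsupp.degree_apply, ← Finset.prod_pow_eq_pow_sum, ← Finset.prod_mul_distrib]
    refine Finset.prod_congr rfl fun a _ => ?_
    rw [mul_pow, map_pow]
  rw [h1, Polynomial.algebraMap_eq, mul_assoc]

section core
attribute [local instance] MvPolynomial.gradedAlgebra

/-- a prime ideal which contains the partial derivatives and whose forms vanish at `p` contains the
ideal of the line -/
theorem line_le (F : MvPolynomial σ ℂ) (d : ℕ) (hF : F.IsHomogeneous d) (p : σ → ℂ)
    (hp : IsIsolatedSingular F p) (Q : Ideal (MvPolynomial σ ℂ)) (hQ : Q.IsPrime)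
    (hJ : ∀ k, pderiv k F ∈ Q) (hQp : ∀ a ∈ Q, eval p a = 0) : lineIdeal p ≤ Q := by
  have h1 : (Q.homogeneousCore (homogeneousSubmodule σ ℂ)).toIdeal.IsPrime :=
    Ideal.IsPrime.homogeneousCore hQ
  have h2 : Ideal.span (Set.range fun k => pderiv k F) ≤
      (Q.homogeneousCore (homogeneousSubmodule σ ℂ)).toIdeal := by
    rw [Ideal.span_le]
    rintro _ ⟨k, rfl⟩
    exact Ideal.mem_homogeneousCore_of_homogeneous_of_mem ⟨d - 1, hF.pderiv⟩ (hJ k)
  have h3 : (Q.homogeneousCore (homogeneousSubmodule σ ℂ)).toIdeal ≤ lineIdeal p := by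
    intro a ha
    rw [lineIdeal, RingHom.mem_ker]
    conv_lhs => rw [← sum_homogeneousComponent a]
    rw [map_sum]
    refine Finset.sum_eq_zero fun n _ => ?_
    rw [aeval_line p _ n (homogeneousComponent_isHomogeneous n a)]
    have h4 : homogeneousComponent n a ∈ Q :=
      Ideal.toIdeal_homogeneousCore_le _ _ (homogeneousComponent_mem_of_mem
        (Q.homogeneousCore (homogeneousSubmodule σ ℂ)).isHomogeneous ha n)
    rw [hQp _ h4, map_zero, zero_mul]
  exact (hp.2 ⟨h1, h2⟩ h3).trans (Ideal.toIdeal_homogeneousCore_le _ _)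

end core

/-- **An isolated singular point of a member, outside of the base locus, gives an isolated critical
point.** -/
theorem isolated_node (F Λ : MvPolynomial σ ℂ) (d : ℕ) (hd : 0 < d) (hF : F.IsHomogeneous d)
    (hΛ : Λ.IsHomogeneous d) (p : σ → ℂ) (hp : IsIsolatedSingular F p) (c : ℂ)
    (hc : eval p Λ = c) (hc0 : c ≠ 0) :
    IsIsolatedCritical (rename Sum.inl F + X (Sum.inr ()) * rename Sum.inl Λ +
      C (-c) * X (Sum.inr ()) : MvPolynomial (σ ⊕ Unit) ℂ) (Sum.elim p fun _ => 0) := by
  classical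
  set H : MvPolynomial (σ ⊕ Unit) ℂ := rename Sum.inl F + X (Sum.inr ()) * rename Sum.inl Λ +
      C (-c) * X (Sum.inr ()) with hH
  have hr : ∀ (l : σ) (a : MvPolynomial σ ℂ), pderiv (Sum.inl l : σ ⊕ Unit) (rename Sum.inl a) =
      rename Sum.inl (pderiv l a) := fun l a => pderiv_rename Sum.inl_injective l a
  have h1 : ∀ l : σ, pderiv (Sum.inl l) H =
      rename Sum.inl (pderiv l F) + X (Sum.inr ()) * rename Sum.inl (pderiv l Λ) := by
    intro l
    rw [hH, map_add, map_add, Derivation.leibniz, Derivation.leibniz, hr, hr,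
      pderiv_X_of_ne (by simp), pderiv_C, smul_zero, smul_zero, smul_zero, smul_eq_mul, add_zero,
      add_zero, add_zero]
  have h2 : pderiv (Sum.inr ()) H = rename Sum.inl Λ - C c := by
    rw [hH, map_add, map_add, Derivation.leibniz, Derivation.leibniz,
      pderiv_rn _ _ (fun t h => by cases h), pderiv_rn _ _ (fun t h => by cases h),
      pderiv_X_self, pderiv_C]
    simp only [smul_zero, smul_eq_mul, zero_add, mul_one, map_neg, add_zero]
    ring
  have hev : ∀ a : MvPolynomial σ ℂ, eval (Sum.elim p fun _ => 0 : σ ⊕ Unit → ℂ)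
      (rename Sum.inl a) = eval p a := by
    intro a
    rw [eval_rename]
    rfl
  have hp0 : ∀ k, eval p (pderiv k F) = 0 := by
    intro k
    have h3 : pderiv k F ∈ lineIdeal p := hp.1.2 (Ideal.subset_span ⟨k, rfl⟩)
    rw [lineIdeal, RingHom.mem_ker, aeval_line p _ (d - 1) hF.pderiv] at h3
    exact Polynomial.C_eq_zero.1 ((mul_eq_zero.1 h3).resolve_right
      (pow_ne_zero _ Polynomial.X_ne_zero))
  refine ⟨⟨RingHom.ker_isPrime _, ?_⟩, ?_⟩
  · rw [Ideal.span_le]
    rintro _ ⟨k, rfl⟩
    rw [SetLike.mem_coe, RingHom.mem_ker]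
    rcases k with l | ⟨⟩
    · change eval _ (pderiv (Sum.inl l) H) = 0
      rw [h1, map_add, map_mul, hev, hp0, eval_X]
      simp
    · change eval _ (pderiv (Sum.inr ()) H) = 0
      rw [h2, map_sub, hev, hc, eval_C, sub_self]
  · rintro Q ⟨hQ, hJ⟩ hQP
    have hQm : ∀ a ∈ Q, eval (Sum.elim p fun _ => 0 : σ ⊕ Unit → ℂ) a = 0 := fun a ha => hQP ha
    have hJ1 : ∀ k, pderiv k H ∈ Q := fun k => hJ (Ideal.subset_span ⟨k, rfl⟩)
    have hd0 : (d : ℂ) ≠ 0 := by exact_mod_cast hd.ne'
    -- the Euler relation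
    have heul : rename Sum.inl F + X (Sum.inr ()) * rename Sum.inl Λ ∈ Q := by
      have h3 : ∑ l : σ, X (Sum.inl l) * pderiv (Sum.inl l) H =
          (d : ℂ) • (rename Sum.inl F + X (Sum.inr ()) * rename Sum.inl Λ :
            MvPolynomial (σ ⊕ Unit) ℂ) := by
        have h4 : ∀ l : σ, X (Sum.inl l) * pderiv (Sum.inl l) H =
            (rename Sum.inl (X l * pderiv l F) : MvPolynomial (σ ⊕ Unit) ℂ) +
              X (Sum.inr ()) * rename Sum.inl (X l * pderiv l Λ) := by
          intro l
          rw [h1, map_mul, map_mul, rename_X]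
          ring
        rw [Finset.sum_congr rfl fun l _ => h4 l, Finset.sum_add_distrib, ← Finset.mul_sum,
          ← map_sum, ← map_sum, hF.sum_X_mul_pderiv, hΛ.sum_X_mul_pderiv, map_nsmul, map_nsmul,
          Nat.cast_smul_eq_nsmul, smul_add, mul_smul_comm]
      have h5 : (rename Sum.inl F + X (Sum.inr ()) * rename Sum.inl Λ :
          MvPolynomial (σ ⊕ Unit) ℂ) = C (d : ℂ)⁻¹ * ∑ l : σ, X (Sum.inl l) * pderiv (Sum.inl l) H := by
        rw [h3, smul_eq_C_mul, ← mul_assoc, ← C_mul, inv_mul_cancel₀ hd0, C_1, one_mul]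
      rw [h5]
      exact Ideal.mul_mem_left _ _ (Ideal.sum_mem _ fun l _ => Ideal.mul_mem_left _ _ (hJ1 _))
    -- the last variable is zero
    have hz : (X (Sum.inr ()) : MvPolynomial (σ ⊕ Unit) ℂ) ∈ Q := by
      obtain ⟨t, ht⟩ := sard H Q hQ hJ1
      have h3 : C (-c) * X (Sum.inr ()) - C t ∈ Q := by
        have h4 : C (-c) * X (Sum.inr ()) - C t = (H - C t) -
            (rename Sum.inl F + X (Sum.inr ()) * rename Sum.inl Λ) := by
          rw [hH]
          ring
        rw [h4]
        exact Ideal.sub_mem _ ht heul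
      have h4 := hQm _ h3
      rw [map_sub, map_mul, eval_C, eval_C, eval_X, Sum.elim_inr, mul_zero, zero_sub,
        neg_eq_zero] at h4
      rw [h4, map_zero, sub_zero] at h3
      refine (hQ.mem_or_mem h3).resolve_left fun h5 => ?_
      have h6 := hQm _ h5
      rw [eval_C, neg_eq_zero] at h6
      exact hc0 h6
    -- the ideal of the line
    let Q' : Ideal (MvPolynomial σ ℂ) :=
      Q.comap (rename Sum.inl : MvPolynomial σ ℂ →ₐ[ℂ] MvPolynomial (σ ⊕ Unit) ℂ)
    have hQ' : Q'.IsPrime := Ideal.IsPrime.comap _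
    have hline : lineIdeal p ≤ Q' := by
      refine line_le F d hF p hp Q' hQ' (fun k => ?_) fun a ha => ?_
      · change rename Sum.inl (pderiv k F) ∈ Q
        have h3 : (rename Sum.inl (pderiv k F) : MvPolynomial (σ ⊕ Unit) ℂ) =
            pderiv (Sum.inl k) H - rename Sum.inl (pderiv k Λ) * X (Sum.inr ()) := by
          rw [h1]
          ring
        rw [h3]
        exact Ideal.sub_mem _ (hJ1 _) (Ideal.mul_mem_left _ _ hz)
      · have h3 := hQm _ ha
        rwa [hev] at h3
    -- the point
    have hpne : ∃ l0, p l0 ≠ 0 := by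
      by_contra h
      push Not at h
      have h3 : p = 0 := funext h
      have h4 : eval p Λ = 0 := by
        rw [h3, eval_zero, constantCoeff_eq]
        exact hΛ.coeff_eq_zero (by rw [map_zero]; omega)
      exact hc0 (hc ▸ h4)
    obtain ⟨l0, hl0⟩ := hpne
    let T : MvPolynomial σ ℂ := C (p l0)⁻¹ * X l0
    have hT : ∀ k, X k - C (p k) * T ∈ Q' := by
      intro k
      refine hline ?_
      rw [lineIdeal, RingHom.mem_ker]
      simp only [T, map_sub, map_mul, aeval_X, aeval_C, algHom_C, Polynomial.algebraMap_eq]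
      have h3 : Polynomial.C (p k) * (Polynomial.C (p l0)⁻¹ * (Polynomial.C (p l0) *
          Polynomial.X)) = Polynomial.C (p k) * (Polynomial.X : Polynomial ℂ) := by
        rw [← mul_assoc (Polynomial.C (p l0)⁻¹), ← Polynomial.C_mul, inv_mul_cancel₀ hl0,
          Polynomial.C_1, one_mul]
      rw [h3, sub_self]
    have hTd : T ^ d - 1 ∈ Q' := by
      have h3 : Λ - C (eval p Λ) * T ^ d ∈ Q' := by
        have h4 : (Ideal.Quotient.mkₐ ℂ Q') Λ =
            (Ideal.Quotient.mkₐ ℂ Q') (C (eval p Λ) * T ^ d) := by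
          have h5 : (Ideal.Quotient.mkₐ ℂ Q') =
              ((Ideal.Quotient.mkₐ ℂ Q').comp (aeval fun k => C (p k) * T)) := by
            ext1 k
            rw [AlgHom.comp_apply, aeval_X]
            exact Ideal.Quotient.eq.2 (hT k)
          have h6 : (aeval (fun k => C (p k) * T) : MvPolynomial σ ℂ →ₐ[ℂ] MvPolynomial σ ℂ) Λ =
              C (eval p Λ) * T ^ d := by
            have h7 := aeval_line p Λ d hΛ
            have h8 : (aeval (fun k => C (p k) * T) : MvPolynomial σ ℂ →ₐ[ℂ] MvPolynomial σ ℂ) =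
                (Polynomial.aeval T).comp
                  (aeval fun k => Polynomial.C (p k) * Polynomial.X :
                    MvPolynomial σ ℂ →ₐ[ℂ] Polynomial ℂ) := by
              ext1 k
              rw [AlgHom.comp_apply, aeval_X, aeval_X, map_mul, Polynomial.aeval_C,
                Polynomial.aeval_X, algebraMap_eq]
            rw [h8, AlgHom.comp_apply, h7, map_mul, Polynomial.aeval_C, map_pow,
              Polynomial.aeval_X, algebraMap_eq]
          rw [← h6]
          exact AlgHom.congr_fun h5 Λ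
        exact Ideal.Quotient.eq.1 h4
      have h4 : Λ - C c ∈ Q' := by
        change rename Sum.inl (Λ - C c) ∈ Q
        have h5 := hJ1 (Sum.inr ())
        rw [h2] at h5
        rwa [map_sub, rename_C]
      have h5 : T ^ d - 1 = C c⁻¹ * ((Λ - C c) - (Λ - C (eval p Λ) * T ^ d)) := by
        rw [hc]
        have h6 : (C c⁻¹ * C c : MvPolynomial σ ℂ) = 1 := by
          rw [← C_mul, inv_mul_cancel₀ hc0, C_1]
        linear_combination (1 - T ^ d) * h6
      rw [h5]
      exact Ideal.mul_mem_left _ _ (Ideal.sub_mem _ h4 h3)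
    have hT1 : T - 1 ∈ Q' := by
      have h3 : (∑ i ∈ Finset.range d, T ^ i) * (T - 1) = T ^ d - 1 := geom_sum_mul T d
      rw [← h3] at hTd
      refine (hQ'.mem_or_mem hTd).resolve_left fun h4 => ?_
      have h5 := hQm _ (h4 : rename Sum.inl _ ∈ Q)
      rw [hev, map_sum] at h5
      have h6 : eval p T = 1 := by
        simp only [T, map_mul, eval_C, eval_X]
        exact inv_mul_cancel₀ hl0
      simp only [map_pow, h6, one_pow, Finset.sum_const, Finset.card_range, nsmul_eq_mul,
        mul_one] at h5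
      exact hd0 h5
    have hXp : ∀ k, X k - C (p k) ∈ Q' := by
      intro k
      have h3 : X k - C (p k) = (X k - C (p k) * T) + C (p k) * (T - 1) := by ring
      rw [h3]
      exact Ideal.add_mem _ (hT k) (Ideal.mul_mem_left _ _ hT1)
    refine ker_eval_le _ Q fun k => ?_
    rcases k with l | ⟨⟩
    · rw [Sum.elim_inl]
      have h3 : rename Sum.inl (X l - C (p l)) ∈ Q := hXp l
      rwa [map_sub, rename_X, rename_C] at h3
    · rw [Sum.elim_inr, map_zero, sub_zero]
      exact hz

end Pool.Agent.L5helper26.CP
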