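import Pool.Agent.L5helper26.CP.Iso
import Pool.Agent.L5helper26.CP.Defs

set_option autoImplicit false
set_option linter.unusedSectionVars false

/-! # Isolated critical points -/

namespace Pool.Agent.L5helper26.CP

open MvPolynomial Pool.Agent.H628R4.TP Pool.Agent.W574.HS Pool.Agent.N127.PB

section iso

variable {κ : Type} [Fintype κ] [DecidableEq κ]

theorem db_pow (k : κ) (c : ℂ) (M : ℕ) :
    DB M ((X k - C c) ^ M - X k ^ M : MvPolynomial κ ℂ) := by
  induction M with
  | zero =>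
    intro m _
    simp
  | succ M ih =>
    have h : ((X k - C c) ^ (M + 1) - X k ^ (M + 1) : MvPolynomial κ ℂ) =
        ((X k - C c) ^ M - X k ^ M) * (X k - C c) - X k ^ M * C c := by ring
    rw [h]
    have h1 : (X k ^ M : MvPolynomial κ ℂ).IsHomogeneous M := by
      have h := (isHomogeneous_X ℂ k).pow M
      rwa [one_mul] at h
    have h2 : DB 2 (X k - C c : MvPolynomial κ ℂ) := by
      refine (DB.of_hom (isHomogeneous_X ℂ k)).sub ?_
      intro m hm
      exact (isHomogeneous_C κ c).coeff_eq_zero (by omega)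
    refine DB.sub (ih.mul h2) ?_
    exact (DB.of_hom h1).mul (DB.of_hom (isHomogeneous_C κ c))

instance (P : κ → ℂ) : (RingHom.ker (eval P : MvPolynomial κ ℂ →+* ℂ)).IsPrime :=
  RingHom.ker_isPrime _

/-- the local ring of the affine space at the point `P` -/
abbrev Rl (P : κ → ℂ) : Type := Localization.AtPrime (RingHom.ker (eval P : MvPolynomial κ ℂ →+* ℂ))

/-- **The syzygies of the partial derivatives at an isolated critical point are trivial.** -/
theorem syz_iso (H : MvPolynomial κ ℂ) (P : κ → ℂ) (hP : IsIsolatedCritical H P) :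
    Syz fun k => algebraMap (MvPolynomial κ ℂ) (Rl P) (pderiv k H) := by
  classical
  set p : Ideal (MvPolynomial κ ℂ) := RingHom.ker (eval P : MvPolynomial κ ℂ →+* ℂ) with hp
  set J : Ideal (MvPolynomial κ ℂ) := Ideal.span (Set.range fun k => pderiv k H) with hJ
  have hrad : (J.map (algebraMap _ (Rl P))).radical = p.map (algebraMap _ (Rl P)) :=
    IsLocalization.AtPrime.radical_map_of_mem_minimalPrimes (Rl P) p J hP
  have hmax : p.map (algebraMap _ (Rl P)) = IsLocalRing.maximalIdeal (Rl P) :=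
    Localization.AtPrime.map_eq_maximalIdeal
  obtain ⟨N, hN⟩ := Ideal.exists_pow_le_of_le_radical_of_fg (I := p.map (algebraMap _ (Rl P)))
    (J := J.map (algebraMap _ (Rl P))) hrad.ge (IsNoetherian.noetherian _)
  have hspan : J.map (algebraMap _ (Rl P)) =
      Ideal.span (Set.range fun k => algebraMap (MvPolynomial κ ℂ) (Rl P) (pderiv k H)) := by
    rw [hJ, Ideal.map_span]
    congr 1
    ext x
    simp
  set M : ℕ := max (N + 1) ((Finset.univ.sup fun k => (pderiv k H).totalDegree) + 1) with hM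
  have hM1 : N + 1 ≤ M := le_max_left _ _
  have hM2 : ∀ k, (pderiv k H).totalDegree < M := by
    intro k
    have h1 := Finset.le_sup (f := fun k => (pderiv k H).totalDegree) (Finset.mem_univ k)
    exact lt_of_lt_of_le (Nat.lt_succ_of_le h1) (le_max_right _ _)
  have hx : ∀ k : κ, (X k - C (P k) : MvPolynomial κ ℂ) ∈ p := by
    intro k
    rw [hp, RingHom.mem_ker]
    simp
  have h1 : Syz fun k : κ => ((X k - C (P k)) ^ M + pderiv k H : MvPolynomial κ ℂ) := by
    have h2 := syz_top (κ := κ) M (by omega)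
      (fun k => ((X k - C (P k)) ^ M - X k ^ M : MvPolynomial κ ℂ) + pderiv k H)
      (fun k => (db_pow k (P k) M).add (DB.of_totalDegree (hM2 k)))
    have h3 : (fun k : κ => X k ^ M + (((X k - C (P k)) ^ M - X k ^ M : MvPolynomial κ ℂ) +
        pderiv k H)) = fun k : κ => ((X k - C (P k)) ^ M + pderiv k H : MvPolynomial κ ℂ) := by
      funext k
      ring
    rwa [h3] at h2
  have h2 := syz_loc (R := Rl P) p.primeCompl (le_nonZeroDivisors_of_noZeroDivisors (by
    intro h
    exact h (Ideal.zero_mem p))) _ h1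
  have h3 : ∀ k : κ, ∃ c : κ → Rl P, (∀ m, c m ∈ IsLocalRing.maximalIdeal (Rl P)) ∧
      algebraMap (MvPolynomial κ ℂ) (Rl P) ((X k - C (P k)) ^ M) =
        ∑ m, c m * algebraMap (MvPolynomial κ ℂ) (Rl P) (pderiv m H) := by
    intro k
    have h4 : algebraMap (MvPolynomial κ ℂ) (Rl P) ((X k - C (P k)) ^ (M - 1)) ∈
        Ideal.span (Set.range fun k => algebraMap (MvPolynomial κ ℂ) (Rl P) (pderiv k H)) := by
      rw [← hspan]
      refine hN ?_
      rw [map_pow]
      exact Ideal.pow_le_pow_right (by omega) (Ideal.pow_mem_pow (Ideal.mem_map_of_mem _ (hx k)) _)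
    obtain ⟨b, hb⟩ := Ideal.mem_span_range_iff_exists_fun.1 h4
    refine ⟨fun m => algebraMap (MvPolynomial κ ℂ) (Rl P) (X k - C (P k)) * b m, fun m => ?_, ?_⟩
    · rw [← hmax]
      exact Ideal.mul_mem_right _ _ (Ideal.mem_map_of_mem _ (hx k))
    · have h5 : M = (M - 1) + 1 := by omega
      rw [h5, pow_succ', map_mul, ← hb, Finset.mul_sum]
      simp only [Nat.add_sub_cancel]
      refine Finset.sum_congr rfl fun m _ => ?_
      rw [mul_assoc]
  choose c hc1 hc2 using h3
  refine syz_matrix (1 + Matrix.of c) ?_ _ _ (fun k => ?_) h2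
  · by_contra h
    have h4 : (1 + Matrix.of c : Matrix κ κ (Rl P)).det ∈ IsLocalRing.maximalIdeal (Rl P) :=
      (IsLocalRing.mem_maximalIdeal _).2 h
    have h5 : IsLocalRing.residue (Rl P) (1 + Matrix.of c : Matrix κ κ (Rl P)).det = 0 :=
      (IsLocalRing.residue_eq_zero_iff _).2 h4
    rw [RingHom.map_det] at h5
    have h6 : (IsLocalRing.residue (Rl P)).mapMatrix (1 + Matrix.of c : Matrix κ κ (Rl P)) = 1 := by
      rw [map_add, map_one]
      have h7 : (IsLocalRing.residue (Rl P)).mapMatrix (Matrix.of c) = 0 := by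
        ext i j
        rw [RingHom.mapMatrix_apply, Matrix.map_apply, Matrix.of_apply, Matrix.zero_apply]
        exact (IsLocalRing.residue_eq_zero_iff _).2 (hc1 i j)
      rw [h7, add_zero]
    rw [h6, Matrix.det_one] at h5
    exact one_ne_zero h5
  · rw [map_add, hc2 k]
    simp only [Matrix.add_apply, Matrix.of_apply, add_mul, Finset.sum_add_distrib]
    rw [add_comm]
    congr 1
    rw [Finset.sum_eq_single k]
    · rw [Matrix.one_apply_eq, one_mul]
    · intro m _ hm
      rw [Matrix.one_apply_ne (Ne.symm hm), zero_mul]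
    · intro h
      exact absurd (Finset.mem_univ k) h

end iso

section root

variable {ι σ τ : Type} [Fintype ι] [Fintype σ] [Fintype τ]

/-- the Euler operator of the variables `x` -/
theorem eul_psi (y : ι → MvPolynomial τ ℂ) (p : MvPolynomial (ι ⊕ σ) ℂ) :
    ∑ l : σ, X (Sum.inl l) * pderiv (Sum.inl l) (psi y p) = psi y (eul p) := by
  rw [eul, map_sum]
  refine Finset.sum_congr rfl fun l _ => ?_
  rw [pderiv_psi, map_mul, psi_X]

/-- **Isolated critical points.** If a power `G ^ K` is a combination `∑ y_j(z) f_j(x)` and, for some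
polynomial `q` in `z`, `G + q` has an isolated critical point, then `-n/d` is a root. -/
theorem root_iso [DecidableEq σ] [DecidableEq τ] [Nonempty σ] (f : ι → MvPolynomial σ ℂ) (d : ℕ)
    (hd : 0 < d) (α β : ℂ) (hα : α * (d : ℂ) = -(Fintype.card σ : ℂ))
    (hEN : HasEN f d α β) (K e : ℕ) (hKe : K * e = d) (G : MvPolynomial (σ ⊕ τ) ℂ)
    (hGe : IsWeightedHomogeneous (Sum.elim (fun _ => 1) fun _ => 0 : σ ⊕ τ → ℕ) G e)
    (y : ι → MvPolynomial τ ℂ)
    (hG : G ^ K = ∑ j, rename Sum.inr (y j) * rename Sum.inl (f j)) (q : MvPolynomial τ ℂ)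
    (P : σ ⊕ τ → ℂ) (hP : IsIsolatedCritical (G + rename Sum.inr q) P) : β = 0 := by
  classical
  obtain ⟨N, V, hV, hEq⟩ := hEN
  have hK : 0 < K := Nat.pos_of_ne_zero fun h => by rw [h, zero_mul] at hKe; omega
  have he : 0 < e := Nat.pos_of_ne_zero fun h => by rw [h, mul_zero] at hKe; omega
  have he0 : (e : ℂ) ≠ 0 := by exact_mod_cast he.ne'
  have hd0 : (d : ℂ) ≠ 0 := by exact_mod_cast hd.ne'
  set H : MvPolynomial (σ ⊕ τ) ℂ := G + rename Sum.inr q with hH
  let φ : MvPolynomial (σ ⊕ τ) ℂ →ₐ[ℂ] Rl P := Algebra.algHom ℂ _ _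
  have hφ : ∀ a, φ a = algebraMap (MvPolynomial (σ ⊕ τ) ℂ) (Rl P) a := fun a => rfl
  have hD' : ∀ k : σ ⊕ τ, ∃ D : Derivation ℂ (Rl P) (Rl P), ∀ a, D (φ a) = φ (pderiv k a) :=
    fun k => exists_derivation (RingHom.ker (eval P : MvPolynomial (σ ⊕ τ) ℂ →+* ℂ)).primeCompl
      (pderiv k)
  choose D hD using hD'
  have hcomm : ∀ (k m : σ ⊕ τ) (a : Rl P), D k (D m a) = D m (D k a) := by
    intro k m a
    have h1 := derivation_eq_zero
      (RingHom.ker (eval P : MvPolynomial (σ ⊕ τ) ℂ →+* ℂ)).primeCompl ⁅D k, D m⁆ (fun b => by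
        rw [Derivation.commutator_apply, ← hφ, hD, hD, hD, hD, pd_comm, sub_self]) a
    rw [Derivation.commutator_apply] at h1
    exact sub_eq_zero.1 h1
  let g : σ ⊕ τ → Rl P := fun k => φ (pderiv k H)
  have hsyz : Syz g := syz_iso H P hP
  have hgm : ∀ k, g k ∈ IsLocalRing.maximalIdeal (Rl P) := by
    intro k
    have h1 : pderiv k H ∈ RingHom.ker (eval P : MvPolynomial (σ ⊕ τ) ℂ →+* ℂ) :=
      hP.1.2 (Ideal.subset_span ⟨k, rfl⟩)
    have h2 : (RingHom.ker (eval P : MvPolynomial (σ ⊕ τ) ℂ →+* ℂ)).map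
        (algebraMap _ (Rl P)) = IsLocalRing.maximalIdeal (Rl P) :=
      Localization.AtPrime.map_eq_maximalIdeal
    rw [← h2]
    exact Ideal.mem_map_of_mem _ h1
  have hgl : ∀ l : σ, pderiv (Sum.inl l) H = pderiv (Sum.inl l) G := by
    intro l
    rw [hH, map_add, pderiv_rn _ _ (fun t h => by cases h), add_zero]
  have hG0 : G ≠ 0 := by
    intro h0
    obtain ⟨l⟩ := ‹Nonempty σ›
    have h1 : g (Sum.inl l) = 0 := by
      change φ (pderiv (Sum.inl l) H) = 0
      rw [hgl, h0, map_zero, map_zero]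
    obtain ⟨S, -, hS⟩ := hsyz (Pi.single (Sum.inl l) 1) (by
      rw [Finset.sum_eq_single (Sum.inl l)]
      · rw [h1, mul_zero]
      · intro m _ hm
        rw [Pi.single_eq_of_ne hm, zero_mul]
      · intro h
        exact absurd (Finset.mem_univ _) h)
    have h2 := hS (Sum.inl l)
    rw [Pi.single_eq_same] at h2
    have h3 : (1 : Rl P) ∈ IsLocalRing.maximalIdeal (Rl P) := by
      rw [h2]
      exact Ideal.sum_mem _ fun m _ => Ideal.mul_mem_left _ _ (hgm m)
    exact (Ideal.ne_top_iff_one _).1 (IsLocalRing.maximalIdeal.isMaximal (Rl P)).ne_top h3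
  let x : σ ⊕ τ → Rl P := Sum.elim (fun l => φ (X (Sum.inl l))) fun _ => 0
  let W : σ ⊕ τ → Rl P := Sum.elim (fun l => φ (psi y (V l))) fun _ => 0
  have hxD : ∀ p : MvPolynomial (σ ⊕ τ) ℂ, ∑ k, x k * D k (φ p) =
      φ (∑ l : σ, X (Sum.inl l) * pderiv (Sum.inl l) p) := by
    intro p
    rw [Fintype.sum_sum_type]
    have h1 : ∑ k : τ, x (Sum.inr k) * D (Sum.inr k) (φ p) = 0 :=
      Finset.sum_eq_zero fun k _ => by
        change (0 : Rl P) * _ = 0
        rw [zero_mul]
    rw [h1, add_zero, map_sum]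
    refine Finset.sum_congr rfl fun l _ => ?_
    rw [hD, map_mul]
    rfl
  have hGeul : ∑ l : σ, X (Sum.inl l) * pderiv (Sum.inl l) G = (e : ℂ) • G := by
    have h2 := hGe.sum_weight_X_mul_pderiv
    rw [Fintype.sum_sum_type] at h2
    simp only [Sum.elim_inl, Sum.elim_inr, zero_smul, Finset.sum_const_zero, add_zero,
      one_smul] at h2
    rw [h2, ← Nat.cast_smul_eq_nsmul ℂ]
  have hG' : ∑ k, x k * D k (φ G) = (e : ℂ) • φ G := by
    rw [hxD, hGeul, map_smul]
  have hg : ∑ k, g k * x k = (e : ℂ) • φ G := by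
    rw [Fintype.sum_sum_type]
    have h1 : ∑ k : τ, g (Sum.inr k) * x (Sum.inr k) = 0 :=
      Finset.sum_eq_zero fun k _ => by
        change _ * (0 : Rl P) = 0
        rw [mul_zero]
    rw [h1, add_zero, ← map_smul, ← hGeul, map_sum]
    refine Finset.sum_congr rfl fun l _ => ?_
    change φ (pderiv (Sum.inl l) H) * φ (X (Sum.inl l)) = _
    rw [hgl, map_mul, mul_comm]
  have hW : ∑ k, D k (W k) = φ (psi y (∑ l, pderiv (Sum.inr l) (V l))) := by
    rw [Fintype.sum_sum_type]
    have h1 : ∑ k : τ, D (Sum.inr k) (W (Sum.inr k)) = 0 :=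
      Finset.sum_eq_zero fun k _ => map_zero _
    rw [h1, add_zero, map_sum, map_sum]
    refine Finset.sum_congr rfl fun l _ => ?_
    change D (Sum.inl l) (φ (psi y (V l))) = _
    rw [hD, pderiv_psi]
  have hgW : ∑ k, g k * W k = φ (∑ l, psi y (V l) * pderiv (Sum.inl l) G) := by
    rw [Fintype.sum_sum_type]
    have h1 : ∑ k : τ, g (Sum.inr k) * W (Sum.inr k) = 0 :=
      Finset.sum_eq_zero fun k _ => by
        change _ * (0 : Rl P) = 0
        rw [mul_zero]
    rw [h1, add_zero, map_sum]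
    refine Finset.sum_congr rfl fun l _ => ?_
    change φ (pderiv (Sum.inl l) H) * φ (psi y (V l)) = _
    rw [hgl, map_mul, mul_comm]
  have hE : eul (∑ l, pderiv (Sum.inr l) (V l)) =
      ((d : ℂ) * N) • ∑ l, pderiv (Sum.inr l) (V l) := by
    have h1 : ∀ l : σ, eul (pderiv (Sum.inr l) (V l)) = ((d : ℂ) * N) • pderiv (Sum.inr l) (V l) := by
      intro l
      rw [eul_pderiv (V l) _ (eul_of_bihom (V l) _ _ (hV l)) l]
      congr 1
      push_cast
      ring
    have h2 : eul (∑ l, pderiv (Sum.inr l) (V l)) = ∑ l : σ, eul (pderiv (Sum.inr l) (V l)) := by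
      simp only [eul, map_sum, Finset.mul_sum]
      exact Finset.sum_comm
    rw [h2, Finset.smul_sum]
    exact Finset.sum_congr rfl fun l _ => h1 l
  have hx : ∑ k, D k (x k) = algebraMap ℂ (Rl P) (Fintype.card σ : ℂ) := by
    rw [Fintype.sum_sum_type]
    have h1 : ∑ k : τ, D (Sum.inr k) (x (Sum.inr k)) = 0 :=
      Finset.sum_eq_zero fun k _ => map_zero _
    have h2 : ∀ l : σ, D (Sum.inl l) (x (Sum.inl l)) = 1 := by
      intro l
      change D (Sum.inl l) (φ (X (Sum.inl l))) = 1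
      rw [hD, pderiv_X_self, map_one]
    rw [h1, add_zero, Finset.sum_congr rfl fun l _ => h2 l, Finset.sum_const, Finset.card_univ,
      nsmul_eq_mul, mul_one, map_natCast]
  have hun : psi y (univ f) = G ^ K := by
    rw [psi_univ f y q, Ft, hG]
    ring
  have hC : ∀ a : ℂ, psi y (C a : MvPolynomial (ι ⊕ σ) ℂ) = C a := fun a => aeval_C _ _
  have h1 := congrArg (psi y) hEq
  rw [map_mul, map_pow, hun, map_sum] at h1
  simp only [map_add, map_mul, ← pderiv_psi, hun, hC] at h1
  have h2 : ∀ l : σ, pderiv (Sum.inl l) (G ^ K) = G ^ (K - 1) * ((K : ℂ) • pderiv (Sum.inl l) G) := by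
    intro l
    rw [Derivation.leibniz_pow, nsmul_eq_mul, smul_eq_mul, Algebra.smul_def, map_natCast]
    ring
  have heq0 : β • G ^ (K * N + 1) = G * psi y (∑ l, pderiv (Sum.inr l) (V l)) +
      ((K : ℂ) * α - ((K * N : ℕ) : ℂ)) • ∑ l, psi y (V l) * pderiv (Sum.inl l) G := by
    refine mul_left_cancel₀ (pow_ne_zero (K - 1) hG0) ?_
    have h3 : G ^ (K - 1) * (β • G ^ (K * N + 1)) = C β * (G ^ K) ^ (N + 1) := by
      rw [smul_eq_C_mul, ← pow_mul, mul_left_comm, ← pow_add]
      congr 2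
      have : K * (N + 1) = K * N + K := by ring
      omega
    rw [h3, h1]
    have h4 : G ^ K = G ^ (K - 1) * G := by
      rw [← pow_succ]
      congr 1
      omega
    rw [mul_add, Finset.sum_add_distrib]
    refine congrArg₂ (· + ·) ?_ ?_
    · rw [map_sum, Finset.mul_sum, Finset.mul_sum]
      refine Finset.sum_congr rfl fun l _ => ?_
      rw [h4, pderiv_psi]
      ring
    · rw [smul_eq_C_mul, Finset.mul_sum, Finset.mul_sum]
      refine Finset.sum_congr rfl fun l _ => ?_
      rw [h2, smul_eq_C_mul]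
      have h5 : (C ((K : ℂ) * α - ((K * N : ℕ) : ℂ)) : MvPolynomial (σ ⊕ τ) ℂ) =
          C (α - N) * C (K : ℂ) := by
        rw [← C_mul]
        congr 1
        push_cast
        ring
      rw [h5]
      ring
  have heq : β • φ G ^ (K * N + 1) = φ G * ∑ k, D k (W k) +
      ((K : ℂ) * α - ((K * N : ℕ) : ℂ)) • ∑ k, g k * W k := by
    rw [hW, hgW, ← map_mul, ← map_smul, ← map_add, ← map_pow, ← map_smul, heq0]
  have hDW : ∑ k, x k * D k (∑ l, D l (W l)) = ((e : ℂ) * ((K * N : ℕ) : ℂ)) • ∑ l, D l (W l) := by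
    rw [hW, hxD, eul_psi, hE, map_smul, map_smul]
    congr 1
    rw [← hKe]
    push_cast
    ring
  have hα' : (K : ℂ) * α * (e : ℂ) = -(Fintype.card σ : ℂ) := by
    rw [← hα, ← hKe]
    push_cast
    ring
  have h5 := inIm_const (D := D) (g := g) x (φ G) e (Fintype.card σ) ((K : ℂ) * α) β (K * N) he0
    hα' hx hg hG' W hDW heq
  have h6 := const_mem (D := D) (g := g) hcomm (fun k m => by
    change D k (φ (pderiv m H)) = D m (φ (pderiv k H))
    rw [hD, hD, pd_comm]) hsyz _ h5
  have h7 : Ideal.span (Set.range g) ≤ IsLocalRing.maximalIdeal (Rl P) := by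
    rw [Ideal.span_le]
    rintro _ ⟨k, rfl⟩
    exact hgm k
  have h8 : β * ∏ i ∈ Finset.range (K * N + 1), ((i : ℂ) - (K : ℂ) * α) = 0 := by
    by_contra h9
    have h10 : IsUnit (algebraMap ℂ (Rl P) (β * ∏ i ∈ Finset.range (K * N + 1),
        ((i : ℂ) - (K : ℂ) * α))) := (isUnit_iff_ne_zero.2 h9).map _
    exact (IsLocalRing.mem_maximalIdeal _).1 (h7 h6) h10
  refine (mul_eq_zero.1 h8).resolve_right (Finset.prod_ne_zero_iff.2 fun i _ h9 => ?_)
  have h10 : ((i * e + Fintype.card σ : ℕ) : ℂ) = 0 := by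
    push_cast
    linear_combination (e : ℂ) * h9 + hα'
  have h11 : i * e + Fintype.card σ = 0 := by exact_mod_cast h10
  have h12 : 0 < Fintype.card σ := Fintype.card_pos
  omega

end root

end Pool.Agent.L5helper26.CP
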