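import Pool.Agent.L5helper26.CP.Crit
import Pool.Agent.R852.SC.Main

set_option autoImplicit false
set_option linter.unusedSectionVars false

/-! # Smooth zero schemes -/

namespace Pool.Agent.L5helper26.CP

open MvPolynomial Pool.Agent.W574.SM Pool.Agent.W574.LM Pool.Agent.W574.HS
  Pool.Agent.H628R4.TP Pool.Agent.TH187.SA Pool.Agent.Y231.RF Pool.Agent.TH192.DT
  Pool.Agent.R852.SC

variable {σ T I : Type} [Fintype σ] [DecidableEq σ] [Fintype T] [DecidableEq T]
  {κ : T → Type} [∀ t, Fintype (κ t)] [∀ t, DecidableEq (κ t)]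

/-- the products have the degree `∑ a t * δ t` -/
theorem prodFam_hom (g : (t : T) → κ t → MvPolynomial σ ℂ) (δ : T → ℕ)
    (hg : ∀ t j, (g t j).IsHomogeneous (δ t)) (a : T → ℕ)
    (j : (q : Σ t, Fin (a t)) → κ q.1) :
    (prodFam (fun q : Σ t, Fin (a t) => g q.1) j).IsHomogeneous (∑ t, a t * δ t) := by
  have h1 : ∑ q : Σ t, Fin (a t), δ q.1 = ∑ t, a t * δ t := by
    rw [Fintype.sum_sigma]
    refine Finset.sum_congr rfl fun t _ => ?_
    change ∑ _y : Fin (a t), δ t = a t * δ t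
    rw [Finset.sum_const, Finset.card_univ, Fintype.card_fin, smul_eq_mul]
  rw [← h1]
  exact IsHomogeneous.prod _ _ _ fun q _ => hg q.1 (j q)

/-- **The roots of the components.** -/
theorem comp_root (g : (t : T) → κ t → MvPolynomial σ ℂ) (δ : T → ℕ) (hδ : ∀ t, 0 < δ t)
    (hg : ∀ t j, (g t j).IsHomogeneous (δ t)) (hg0 : ∀ t, ∃ j, g t j ≠ 0) (a : T → ℕ)
    (ha : ∃ t, a t ≠ 0)
    (hJ : RootCrit (prodFam fun q : Σ t, Fin (a t) => g q.1) (∑ t, a t * δ t))
    (c : I → ℕ) (m : I → T → ℕ) (p : I → σ → ℂ) (hp : ∀ i, PowersOfSmooth g (c i) (m i) (p i))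
    (b : Polynomial ℂ) (hb : IsFunctionalEq (prodFam fun q : Σ t, Fin (a t) => g q.1) b)
    (o : Option I) (ho : 0 < ∑ t, a t * o.elim δ m t) :
    b.eval (-((o.elim (Fintype.card σ) c : ℕ) : ℂ) / (∑ t, a t * o.elim δ m t : ℕ)) = 0 := by
  have hbl := isLocEq_of_isFunctionalEq hb
  rcases o with _ | i
  · have : Nonempty T := ⟨ha.choose⟩
    have := nonempty_of g δ hδ hg hg0
    exact root_main _ _ ho (prodFam_hom g δ hg a) b hb hJ
  · have fin : ∀ (E : Chart g), E.IsRees (fun t => a t ≠ 0) →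
        MvPowerSeries.constantCoeff (aeval E.ξ (1 : MvPolynomial σ ℂ)) ≠ 0 →
        E.k + 1 = (some i).elim (Fintype.card σ) c → E.m = (some i).elim δ m →
        b.eval (-(((some i).elim (Fintype.card σ) c : ℕ) : ℂ) /
          (∑ t, a t * (some i).elim δ m t : ℕ)) = 0 := by
      intro E hR hc hk hm
      have h1 := rees_prod a g b 1 hbl E hR hc 0 (by rw [Chart.mul, hm]; exact ho) 1
        ⟨1, by rw [map_one]; exact one_ne_zero, by rw [map_one, pow_zero, one_mul]⟩
      rw [Nat.cast_zero, add_zero, Chart.mul, hm] at h1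
      rw [← hk]
      push_cast at h1 ⊢
      exact h1
    obtain ⟨r, hr, hHr⟩ := exists_scale (1 : MvPolynomial σ ℂ) (by simp) (p i)
    obtain ⟨t, _, ht⟩ := Finset.exists_ne_zero_of_sum_ne_zero (Nat.pos_iff_ne_zero.1 ho)
    obtain ⟨E, hk, hm, hR, hc⟩ := smooth_chart g (c i) (m i) (fun j => r * p i j)
      ((hp i).scale δ hg r hr) (fun t => a t ≠ 0)
      ⟨t, left_ne_zero_of_mul ht, Nat.pos_of_ne_zero (right_ne_zero_of_mul ht)⟩
    exact fin E hR (hc 1 hHr) hk hm

end Pool.Agent.L5helper26.CP
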