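import Pool.Agent.L5helper26.CP.Cri
import Pool.Agent.TH144.MB.Reg
import Pool.Agent.H918R4.TG4b

set_option autoImplicit false
set_option linter.unusedSectionVars false

/-! # Powers of a form without critical points -/

namespace Pool.Agent.L5helper26.CP

open MvPolynomial Pool.Agent.H628R4.TP Pool.Agent.W574.HS Pool.Agent.N127.PB Pool.Agent.TH144.MB

section syz

variable {σ : Type}

theorem ext_eq (L : List (MvPolynomial σ ℂ)) : ∀ I : Ideal (MvPolynomial σ ℂ),
    TH144.MB.ext I L = I ⊔ Ideal.span {x | x ∈ L} := by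
  induction L with
  | nil =>
    intro I
    simp [TH144.MB.ext]
  | cons f L ih =>
    intro I
    rw [TH144.MB.ext, ih, sup_assoc]
    congr 1
    rw [← Ideal.span_union]
    congr 1
    ext x
    simp

theorem reg_get (L : List (MvPolynomial σ ℂ)) (h : Reg ⊥ L) (i : ℕ) (hi : i < L.length) :
    NZ L[i] (Ideal.span {x | x ∈ L.take i}) := by
  have h1 : L.take i ++ L.drop i = L := List.take_append_drop i L
  rw [← h1, reg_append, List.drop_eq_getElem_cons hi] at h
  have h2 := h.2.1
  rwa [ext_eq, bot_sup_eq] at h2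

/-- forms without common zeros have only the trivial syzygies -/
theorem syz_of_forms [Fintype σ] (g : σ → MvPolynomial σ ℂ) (e : ℕ) (he : 0 < e)
    (hg : ∀ k, (g k).IsHomogeneous e) (hz : ∀ v : σ → ℂ, (∀ k, eval v (g k) = 0) → v = 0) :
    Syz g := by
  classical
  set r := Fintype.card σ with hr
  let ε : Fin r ≃ σ := (Fintype.equivFin σ).symm
  obtain ⟨h1, -⟩ := square (K := ℂ) (List.ofFn fun i : Fin r => (g (ε i), e)) []
    (by
      intro x hx
      rw [List.mem_ofFn] at hx
      obtain ⟨i, rfl⟩ := hx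
      exact ⟨hg _, he⟩)
    (by rw [List.length_nil, zero_add, List.length_ofFn])
    (by
      intro v _ hv
      refine hz v fun k => ?_
      have := hv (g (ε (ε.symm k)), e) (by
        rw [List.mem_ofFn]
        exact ⟨ε.symm k, rfl⟩)
      simpa using this)
  rw [List.map_nil, List.nil_append, List.map_ofFn] at h1
  have h2 : ∀ (j : Fin r) (h : MvPolynomial σ ℂ),
      h * g (ε (Fin.rev j)) ∈ Ideal.span ((fun i => g (ε (Fin.rev i))) '' {k | j < k}) →
      h ∈ Ideal.span ((fun i => g (ε (Fin.rev i))) '' {k | j < k}) := by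
    intro j h hh
    have h3 := reg_get _ h1 (Fin.rev j) (by rw [List.length_ofFn]; exact (Fin.rev j).2)
    rw [List.getElem_ofFn] at h3
    have h4 : {x | x ∈ (List.ofFn (Prod.fst ∘ fun i : Fin r => (g (ε i), e))).take (Fin.rev j)} =
        (fun i => g (ε (Fin.rev i))) '' {k | j < k} := by
      ext x
      rw [Set.mem_ofPred_eq, List.mem_take_iff_getElem, Set.mem_image]
      constructor
      · rintro ⟨i, hi, rfl⟩
        have hi2 : i < (Fin.rev j : Fin r).1 := lt_of_lt_of_le hi (min_le_left _ _)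
        have hi3 : i < r := hi2.trans (Fin.rev j).2
        refine ⟨Fin.rev ⟨i, hi3⟩, ?_, ?_⟩
        · rw [Set.mem_ofPred_eq, Fin.lt_rev_iff]
          exact hi2
        · rw [Fin.rev_rev, List.getElem_ofFn]
          rfl
      · rintro ⟨k, hk, rfl⟩
        have hk2 : (Fin.rev k).1 < (Fin.rev j).1 := Fin.rev_lt_rev.2 hk
        refine ⟨(Fin.rev k).1, ?_, ?_⟩
        · rw [List.length_ofFn, lt_min_iff]
          exact ⟨hk2, (Fin.rev k).2⟩
        · rw [List.getElem_ofFn]
          rfl
    rw [h4] at h3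
    refine h3 h ?_
    rw [mul_comm]
    exact hh
  intro u hu
  obtain ⟨s, hs1, -, hs3⟩ := Pool.Agent.H918R4.koszul (MvPolynomial σ ℂ) r
    (fun i => g (ε (Fin.rev i))) h2 (fun i => u (ε (Fin.rev i))) (by
      rw [← hu]
      exact Equiv.sum_comp (Fin.revPerm.trans ε) fun k => u k * g k)
  refine ⟨fun k m => s (Fin.rev (ε.symm k)) (Fin.rev (ε.symm m)), fun k m => hs1 _ _, fun k => ?_⟩
  have h3 := hs3 (Fin.rev (ε.symm k))
  simp only [Fin.rev_rev, Equiv.apply_symm_apply] at h3
  rw [h3]
  rw [← Equiv.sum_comp (Fin.revPerm.trans ε) fun m =>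
    s (Fin.rev (ε.symm k)) (Fin.rev (ε.symm m)) * g m]
  refine Finset.sum_congr rfl fun i _ => ?_
  simp [Fin.revPerm]

end syz

section smooth

variable {σ : Type} [Fintype σ]

/-- the substitution `y = 1` -/
noncomputable def chi : MvPolynomial (Unit ⊕ σ) ℂ →ₐ[ℂ] MvPolynomial σ ℂ :=
  aeval (Sum.elim (fun _ => 1) X)

theorem pderiv_chi (l : σ) (p : MvPolynomial (Unit ⊕ σ) ℂ) :
    pderiv l (chi p) = chi (pderiv (Sum.inr l) p) := by
  classical
  induction p using MvPolynomial.induction_on with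
  | C a =>
    have h : chi (C a : MvPolynomial (Unit ⊕ σ) ℂ) = C a := aeval_C _ _
    rw [h, pderiv_C, pderiv_C, map_zero]
  | add p q hp hq => simp only [map_add, hp, hq]
  | mul_X p i hp =>
    have h1 : pderiv l (chi (X i : MvPolynomial (Unit ⊕ σ) ℂ)) =
        chi (pderiv (Sum.inr l) (X i)) := by
      have h2 : chi (X i : MvPolynomial (Unit ⊕ σ) ℂ) =
        Sum.elim (fun _ => 1) X i := aeval_X _ _
      rw [h2]
      rcases i with j | m
      · rw [Sum.elim_inl, pderiv_X_of_ne (by simp), map_zero, pderiv_one]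
      · rw [Sum.elim_inr]
        by_cases h : m = l
        · subst h
          rw [pderiv_X_self, pderiv_X_self, map_one]
        · rw [pderiv_X_of_ne h,
            pderiv_X_of_ne (fun h3 => h (Sum.inr_injective h3)), map_zero]
    rw [map_mul, Derivation.leibniz, Derivation.leibniz, map_add, smul_eq_mul, smul_eq_mul,
      smul_eq_mul, smul_eq_mul, map_mul, map_mul, hp, h1]

theorem chi_rename (p : MvPolynomial σ ℂ) : chi (rename Sum.inr p) = p := by
  have h : (chi).comp (rename Sum.inr : MvPolynomial σ ℂ →ₐ[ℂ] MvPolynomial (Unit ⊕ σ) ℂ) =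
      AlgHom.id ℂ _ := by
    ext1 l
    rw [AlgHom.comp_apply, rename_X, chi, aeval_X, Sum.elim_inr]
    rfl
  exact AlgHom.congr_fun h p

theorem chi_univ (G : MvPolynomial σ ℂ) : chi (univ fun _ : Unit => G) = G := by
  rw [univ, Fintype.sum_unique, map_mul, chi_rename, chi, aeval_X, Sum.elim_inl, one_mul]

theorem eul_chi (p : MvPolynomial (Unit ⊕ σ) ℂ) :
    ∑ l : σ, X l * pderiv l (chi p) = chi (eul p) := by
  rw [eul, map_sum]
  refine Finset.sum_congr rfl fun l _ => ?_
  rw [pderiv_chi, map_mul]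
  congr 1
  rw [chi, aeval_X, Sum.elim_inr]

/-- **Powers of a form without critical points.** -/
theorem root_smooth [Nonempty σ] (F : MvPolynomial σ ℂ) (e K : ℕ) (he : 2 ≤ e)
    (hF : F.IsHomogeneous e) (hz : ∀ v : σ → ℂ, (∀ k, eval v (pderiv k F) = 0) → v = 0)
    (hK : 0 < K) (α β : ℂ) (hα : α * ((K * e : ℕ) : ℂ) = -(Fintype.card σ : ℂ))
    (hEN : HasEN (fun _ : Unit => F ^ K) (K * e) α β) : β = 0 := by
  classical
  obtain ⟨N, V, hV, hEq⟩ := hEN
  have he0 : (e : ℂ) ≠ 0 := by
    have : e ≠ 0 := by omega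
    exact_mod_cast this
  have hK0 : (K : ℂ) ≠ 0 := by exact_mod_cast hK.ne'
  have hF0 : F ≠ 0 := by
    rintro rfl
    have h1 := hz (fun _ => 1) (fun k => by rw [map_zero, map_zero])
    exact one_ne_zero (congrFun h1 (Classical.arbitrary σ))
  let D : σ → Derivation ℂ (MvPolynomial σ ℂ) (MvPolynomial σ ℂ) := fun k => pderiv k
  let g : σ → MvPolynomial σ ℂ := fun k => pderiv k F
  let x : σ → MvPolynomial σ ℂ := fun k => X k
  let W : σ → MvPolynomial σ ℂ := fun l => chi (V l)
  have hW : ∑ k, D k (W k) = chi (∑ l, pderiv (Sum.inr l) (V l)) := by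
    rw [map_sum]
    exact Finset.sum_congr rfl fun l _ => pderiv_chi l (V l)
  have hE : eul (∑ l, pderiv (Sum.inr l) (V l)) =
      (((K * e : ℕ) : ℂ) * N) • ∑ l, pderiv (Sum.inr l) (V l) := by
    have h1 : ∀ l : σ, eul (pderiv (Sum.inr l) (V l)) =
        (((K * e : ℕ) : ℂ) * N) • pderiv (Sum.inr l) (V l) := by
      intro l
      rw [eul_pderiv (V l) _ (eul_of_bihom (V l) _ _ (hV l)) l]
      congr 1
      push_cast
      ring
    have h2 : eul (∑ l, pderiv (Sum.inr l) (V l)) = ∑ l : σ, eul (pderiv (Sum.inr l) (V l)) := by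
      simp only [eul, map_sum, Finset.mul_sum]
      exact Finset.sum_comm
    rw [h2, Finset.smul_sum]
    exact Finset.sum_congr rfl fun l _ => h1 l
  have hx : ∑ k, D k (x k) = algebraMap ℂ (MvPolynomial σ ℂ) (Fintype.card σ : ℂ) := by
    have h2 : ∀ l : σ, D l (x l) = 1 := fun l => pderiv_X_self l
    rw [Finset.sum_congr rfl fun l _ => h2 l, Finset.sum_const, Finset.card_univ,
      nsmul_eq_mul, mul_one, map_natCast]
  have hG : ∑ k, x k * D k F = (e : ℂ) • F := by
    have h := hF.sum_X_mul_pderiv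
    rw [Nat.cast_smul_eq_nsmul]
    exact h
  have hg : ∑ k, g k * x k = (e : ℂ) • F := by
    rw [← hG]
    exact Finset.sum_congr rfl fun k _ => mul_comm _ _
  have h1 := congrArg chi hEq
  rw [map_mul, map_pow, chi_univ, map_sum] at h1
  have hC : ∀ a : ℂ, chi (C a : MvPolynomial (Unit ⊕ σ) ℂ) = C a := fun a => aeval_C _ _
  simp only [map_add, map_mul, chi_univ, ← pderiv_chi, hC] at h1
  have h2 : ∀ l : σ, pderiv l (F ^ K) = F ^ (K - 1) * ((K : ℂ) • pderiv l F) := by
    intro l
    rw [Derivation.leibniz_pow, nsmul_eq_mul, smul_eq_mul, Algebra.smul_def, map_natCast]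
    ring
  have heq : β • F ^ (K * N + 1) = F * ∑ k, D k (W k) +
      ((K : ℂ) * α - ((K * N : ℕ) : ℂ)) • ∑ k, g k * W k := by
    refine mul_left_cancel₀ (pow_ne_zero (K - 1) hF0) ?_
    have h3 : F ^ (K - 1) * (β • F ^ (K * N + 1)) = C β * (F ^ K) ^ (N + 1) := by
      rw [smul_eq_C_mul, ← pow_mul, mul_left_comm, ← pow_add]
      congr 2
      have : K * (N + 1) = K * N + K := by ring
      omega
    rw [h3, h1]
    have h4 : F ^ K = F ^ (K - 1) * F := by
      rw [← pow_succ]
      congr 1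
      omega
    rw [mul_add, Finset.sum_add_distrib]
    refine congrArg₂ (· + ·) ?_ ?_
    · rw [Finset.mul_sum, Finset.mul_sum]
      refine Finset.sum_congr rfl fun l _ => ?_
      rw [h4]
      ring
    · rw [smul_eq_C_mul, Finset.mul_sum, Finset.mul_sum]
      refine Finset.sum_congr rfl fun l _ => ?_
      rw [h2, smul_eq_C_mul]
      have h5 : (C ((K : ℂ) * α - ((K * N : ℕ) : ℂ)) : MvPolynomial σ ℂ) =
          C (α - N) * C (K : ℂ) := by
        rw [← C_mul]
        congr 1
        push_cast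
        ring
      rw [h5]
      change C (α - N) * chi (V l) * _ = F ^ (K - 1) * (_ * (pderiv l F * chi (V l)))
      ring
  have hDW : ∑ k, x k * D k (∑ l, D l (W l)) = ((e : ℂ) * ((K * N : ℕ) : ℂ)) • ∑ l, D l (W l) := by
    rw [hW]
    change ∑ l : σ, X l * pderiv l (chi _) = _
    rw [eul_chi, hE, map_smul]
    congr 1
    push_cast
    ring
  have hα' : (K : ℂ) * α * (e : ℂ) = -(Fintype.card σ : ℂ) := by
    rw [← hα]
    push_cast
    ring
  have h5 := inIm_const (D := D) (g := g) x F e (Fintype.card σ) ((K : ℂ) * α) β (K * N) he0 hα' hx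
    hg hG W hDW heq
  have h6 := const_mem (D := D) (g := g) (fun k m a => pd_comm k m a)
    (fun k m => pd_comm k m F)
    (syz_of_forms g (e - 1) (by omega) (fun k => hF.pderiv) hz) _ h5
  have h7 : Ideal.span (Set.range g) ≤ RingHom.ker (constantCoeff (σ := σ) (R := ℂ)) := by
    rw [Ideal.span_le]
    rintro _ ⟨k, rfl⟩
    rw [SetLike.mem_coe, RingHom.mem_ker]
    change coeff 0 (pderiv k F) = 0
    have h8 : (pderiv k F).IsHomogeneous (e - 1) := hF.pderiv
    refine h8.coeff_eq_zero (d := 0) ?_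
    rw [map_zero]
    omega
  have h8 := h7 h6
  rw [RingHom.mem_ker, algebraMap_eq, constantCoeff_C] at h8
  refine (mul_eq_zero.1 h8).resolve_right (Finset.prod_ne_zero_iff.2 fun i _ h9 => ?_)
  have h10 : ((i * e + Fintype.card σ : ℕ) : ℂ) = 0 := by
    push_cast
    linear_combination (e : ℂ) * h9 + hα'
  have h11 : i * e + Fintype.card σ = 0 := by exact_mod_cast h10
  have h12 : 0 < Fintype.card σ := Fintype.card_pos
  omega

end smooth

end Pool.Agent.L5helper26.CP
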